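import Pool.Agent.Lib.MP_2a9317_an.T2.Alg

set_option autoImplicit false

namespace Pool.Agent.Lib.MP_2a9317_an.T2

lemma am {t : ℝ} (ht : 0 < t) (v u : ℝ) : |v * u| ≤ t * u ^ 2 + v ^ 2 / (4 * t) := by
  rw [abs_le]
  constructor
  · have h : 0 ≤ t * (u + v / (2 * t)) ^ 2 := by positivity
    have e : t * (u + v / (2 * t)) ^ 2 = t * u ^ 2 + v * u + v ^ 2 / (4 * t) := by
      field_simp; ring
    linarith
  · have h : 0 ≤ t * (u - v / (2 * t)) ^ 2 := by positivity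
    have e : t * (u - v / (2 * t)) ^ 2 = t * u ^ 2 - v * u + v ^ 2 / (4 * t) := by
      field_simp; ring
    linarith

section
variable {t T : ℝ} (ht : 0 < t) (hT : T = 1 / (4 * t))
include ht hT

lemma am' (v u : ℝ) : |v * u| ≤ t * u ^ 2 + T * v ^ 2 := by
  have := am ht v u
  rw [hT]
  calc _ ≤ _ := this
    _ = _ := by ring

lemma amu (v u : ℝ) : v * u ≤ t * u ^ 2 + T * v ^ 2 := (le_abs_self _).trans (am' ht hT v u)
lemma aml (v u : ℝ) : -(v * u) ≤ t * u ^ 2 + T * v ^ 2 := (neg_le_abs _).trans (am' ht hT v u)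

end

lemma ss (a b : ℝ) : |a * b| ≤ a ^ 2 + b ^ 2 := by
  rw [abs_le]
  constructor <;> nlinarith [sq_nonneg (a + b), sq_nonneg (a - b), sq_nonneg a, sq_nonneg b]

/-- the sum of the small squares -/
def om (τ y z τ' y' z' : ℝ) : ℝ := τ ^ 2 + y ^ 2 + z ^ 2 + τ' ^ 2 + y' ^ 2 + z' ^ 2

section
variable {t T : ℝ} (ht : 0 < t) (hT : T = 1 / (4 * t))
include ht hT

lemma n0_bound {ρ l : ℝ} (hρ : |ρ| ≤ 2) (hl : |l| ≤ 5) (s τ y z s' τ' y' z' : ℝ) :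
    |(l - ρ * (s + τ) + y) * (s + τ) - (l - ρ * (s - τ) + z) * (s - τ)
      - (ρ * (s' + τ') + y') * (s' + τ') + (ρ * (s' - τ') + z') * (s' - τ')| ≤
    20 * t * (1 + s ^ 2 + s' ^ 2) + (20 * T + 2) * om τ y z τ' y' z' := by
  have e1 : (l - ρ * (s + τ) + y) * (s + τ) - (l - ρ * (s - τ) + z) * (s - τ)
      - (ρ * (s' + τ') + y') * (s' + τ') + (ρ * (s' - τ') + z') * (s' - τ')
      = 2 * l * τ * 1 - 4 * ρ * (τ * s) + y * s + y * τ - z * s + z * τ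
        - 4 * ρ * (τ' * s') - y' * s' - y' * τ' + z' * s' - z' * τ' := by ring
  have hT0 : 0 < T := by rw [hT]; positivity
  have m1 : |2 * l * τ * 1| ≤ 10 * (t * 1 ^ 2 + T * τ ^ 2) := by
    have h := am' ht hT τ 1
    have : |2 * l * τ * 1| = 2 * |l| * |τ * 1| := by
      rw [mul_assoc (2 * l) τ 1, abs_mul, abs_mul]; norm_num
    rw [this]
    nlinarith [abs_nonneg l, abs_nonneg (τ * 1)]
  have m2 : |4 * ρ * (τ * s)| ≤ 8 * (t * s ^ 2 + T * τ ^ 2) := by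
    have h := am' ht hT τ s
    have : |4 * ρ * (τ * s)| = 4 * |ρ| * |τ * s| := by
      rw [abs_mul (4 * ρ), abs_mul]; norm_num
    rw [this]
    nlinarith [abs_nonneg ρ, abs_nonneg (τ * s)]
  have m3 : |4 * ρ * (τ' * s')| ≤ 8 * (t * s' ^ 2 + T * τ' ^ 2) := by
    have h := am' ht hT τ' s'
    have : |4 * ρ * (τ' * s')| = 4 * |ρ| * |τ' * s'| := by
      rw [abs_mul (4 * ρ), abs_mul]; norm_num
    rw [this]
    nlinarith [abs_nonneg ρ, abs_nonneg (τ' * s')]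
  have m4 := am' ht hT y s
  have m5 := am' ht hT z s
  have m6 := am' ht hT y' s'
  have m7 := am' ht hT z' s'
  have m8 := ss y τ
  have m9 := ss z τ
  have m10 := ss y' τ'
  have m11 := ss z' τ'
  rw [e1]
  unfold om
  rw [abs_le] at *
  have q1 := sq_nonneg s
  have q2 := sq_nonneg s'
  have q3 := mul_nonneg hT0.le (sq_nonneg τ)
  have q4 := mul_nonneg hT0.le (sq_nonneg τ')
  have q5 := mul_nonneg hT0.le (sq_nonneg y)
  have q6 := mul_nonneg hT0.le (sq_nonneg z)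
  have q7 := mul_nonneg hT0.le (sq_nonneg y')
  have q8 := mul_nonneg hT0.le (sq_nonneg z')
  have q9 := mul_nonneg ht.le (sq_nonneg s)
  have q10 := mul_nonneg ht.le (sq_nonneg s')
  have r1 := sq_nonneg τ
  have r2 := sq_nonneg τ'
  have r3 := sq_nonneg y
  have r4 := sq_nonneg z
  have r5 := sq_nonneg y'
  have r6 := sq_nonneg z'
  constructor
  · linarith [m1.1, m2.1, m3.1, m4.1, m5.1, m6.1, m7.1, m8.1, m9.1, m10.1, m11.1,
      m1.2, m2.2, m3.2, m4.2, m5.2, m6.2, m7.2, m8.2, m9.2, m10.2, m11.2]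
  · linarith [m1.1, m2.1, m3.1, m4.1, m5.1, m6.1, m7.1, m8.1, m9.1, m10.1, m11.1,
      m1.2, m2.2, m3.2, m4.2, m5.2, m6.2, m7.2, m8.2, m9.2, m10.2, m11.2]


lemma q_bound {ρ l : ℝ} (hρ : |ρ| ≤ 2) (hl : |l| ≤ 5) (s τ y z s' τ' y' z' : ℝ) :
    |(l - ρ * (s + τ) + y) * (ρ * (s' - τ') + z') - (ρ * (s' + τ') + y') * (l - ρ * (s - τ) + z)| ≤
    40 * t * (1 + s ^ 2 + s' ^ 2) + (40 * T + 20) * om τ y z τ' y' z' := by
  have e1 : (l - ρ * (s + τ) + y) * (ρ * (s' - τ') + z')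
      - (ρ * (s' + τ') + y') * (l - ρ * (s - τ) + z)
      = - (2 * l * ρ * (τ' * 1)) + l * (z' * 1) - l * (y' * 1) + 2 * (ρ * ρ) * (τ' * s)
        - ρ * (z' * s) + ρ * (y' * s) - 2 * (ρ * ρ) * (τ * s') + ρ * (y * s') - ρ * (z * s')
        - ρ * (τ * z') - ρ * (y * τ') + y * z' - ρ * (τ' * z) - ρ * (y' * τ) - y' * z := by ring
  have hT0 : 0 < T := by rw [hT]; positivity
  have key : ∀ c B v u : ℝ, |c| ≤ B → |c * (v * u)| ≤ B * (t * u ^ 2 + T * v ^ 2) := by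
    intro c B v u hc
    rw [abs_mul]
    have h := am' ht hT v u
    have h1 : 0 ≤ |v * u| := abs_nonneg _
    exact mul_le_mul hc h h1 ((abs_nonneg c).trans hc)
  have key2 : ∀ v u : ℝ, |ρ * (v * u)| ≤ 2 * (v ^ 2 + u ^ 2) := by
    intro v u
    rw [abs_mul]
    exact mul_le_mul hρ (ss v u) (abs_nonneg _) (by norm_num)
  have c1 : |2 * l * ρ| ≤ 20 := by
    rw [abs_mul, abs_mul]
    have : |(2 : ℝ)| = 2 := by norm_num
    rw [this]
    nlinarith [abs_nonneg l, abs_nonneg ρ]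
  have c2 : |2 * (ρ * ρ)| ≤ 8 := by
    rw [abs_mul, abs_mul]
    have : |(2 : ℝ)| = 2 := by norm_num
    rw [this]
    nlinarith [abs_nonneg ρ]
  have m1 := key _ _ τ' 1 c1
  have m2 := key _ _ z' 1 hl
  have m3 := key _ _ y' 1 hl
  have m4 := key _ _ τ' s c2
  have m5 := key _ _ z' s hρ
  have m6 := key _ _ y' s hρ
  have m7 := key _ _ τ s' c2
  have m8 := key _ _ y s' hρ
  have m9 := key _ _ z s' hρ
  have m10 := key2 τ z'
  have m11 := key2 y τ'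
  have m12 := ss y z'
  have m13 := key2 τ' z
  have m14 := key2 y' τ
  have m15 := ss y' z
  rw [e1]
  unfold om
  rw [abs_le] at *
  have q1 := sq_nonneg s
  have q2 := sq_nonneg s'
  have q3 := mul_nonneg hT0.le (sq_nonneg τ)
  have q4 := mul_nonneg hT0.le (sq_nonneg τ')
  have q5 := mul_nonneg hT0.le (sq_nonneg y)
  have q6 := mul_nonneg hT0.le (sq_nonneg z)
  have q7 := mul_nonneg hT0.le (sq_nonneg y')
  have q8 := mul_nonneg hT0.le (sq_nonneg z')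
  have q9 := mul_nonneg ht.le (sq_nonneg s)
  have q10 := mul_nonneg ht.le (sq_nonneg s')
  have r1 := sq_nonneg τ
  have r2 := sq_nonneg τ'
  have r3 := sq_nonneg y
  have r4 := sq_nonneg z
  have r5 := sq_nonneg y'
  have r6 := sq_nonneg z'
  constructor
  · linarith [m1.1, m2.1, m3.1, m4.1, m5.1, m6.1, m7.1, m8.1, m9.1, m10.1, m11.1, m12.1, m13.1,
      m14.1, m15.1, m1.2, m2.2, m3.2, m4.2, m5.2, m6.2, m7.2, m8.2, m9.2, m10.2, m11.2, m12.2,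
      m13.2, m14.2, m15.2]
  · linarith [m1.1, m2.1, m3.1, m4.1, m5.1, m6.1, m7.1, m8.1, m9.1, m10.1, m11.1, m12.1, m13.1,
      m14.1, m15.1, m1.2, m2.2, m3.2, m4.2, m5.2, m6.2, m7.2, m8.2, m9.2, m10.2, m11.2, m12.2,
      m13.2, m14.2, m15.2]

lemma n2_bound {ρ l e : ℝ} (hρ : |ρ| ≤ 2) (hl : |l| ≤ 5) (he0 : 0 ≤ e) (he1 : e ≤ 1)
    (s τ y z s' τ' y' z' : ℝ) :
    |((s' + τ') * (s - τ) - (s + τ) * (s' - τ'))
      - e * ((l - ρ * (s + τ) + y) * (ρ * (s' - τ') + z')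
        - (ρ * (s' + τ') + y') * (l - ρ * (s - τ) + z))| ≤
    50 * t * (1 + s ^ 2 + s' ^ 2) + (50 * T + 20) * om τ y z τ' y' z' := by
  have hq := q_bound ht hT hρ hl s τ y z s' τ' y' z'
  set Q := (l - ρ * (s + τ) + y) * (ρ * (s' - τ') + z')
        - (ρ * (s' + τ') + y') * (l - ρ * (s - τ) + z) with hQ
  have h1 : |e * Q| ≤ |Q| := by
    rw [abs_mul, abs_of_nonneg he0]
    nlinarith [abs_nonneg Q]
  have e1 : (s' + τ') * (s - τ) - (s + τ) * (s' - τ') = 2 * (τ' * s) - 2 * (τ * s') := by ring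
  have hT0 : 0 < T := by rw [hT]; positivity
  have m1 := am' ht hT τ' s
  have m2 := am' ht hT τ s'
  have h2 := h1.trans hq
  rw [e1]
  unfold om at *
  rw [abs_le] at *
  have q3 := mul_nonneg hT0.le (sq_nonneg τ)
  have q4 := mul_nonneg hT0.le (sq_nonneg τ')
  have q5 := mul_nonneg hT0.le (sq_nonneg y)
  have q6 := mul_nonneg hT0.le (sq_nonneg z)
  have q7 := mul_nonneg hT0.le (sq_nonneg y')
  have q8 := mul_nonneg hT0.le (sq_nonneg z')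
  have q9 := mul_nonneg ht.le (sq_nonneg s)
  have q10 := mul_nonneg ht.le (sq_nonneg s')
  constructor
  · linarith [m1.1, m2.1, m1.2, m2.2, h2.1, h2.2]
  · linarith [m1.1, m2.1, m1.2, m2.2, h2.1, h2.2]

end

lemma psi_bound {ρ l : ℝ} (hρ0 : 1 / 2 ≤ ρ) (hl : |l| ≤ 5) (s τ y z s' τ' y' z' : ℝ) :
    (l - ρ * (s + τ) + y) * (s + τ) + (l - ρ * (s - τ) + z) * (s - τ)
      - (ρ * (s' + τ') + y') * (s' + τ') - (ρ * (s' - τ') + z') * (s' - τ') - 200 ≤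
    - (1 / 4) * (1 + s ^ 2 + s' ^ 2) + 20 * om τ y z τ' y' z' := by
  unfold om
  rw [abs_le] at hl
  have h1 : 2 * l * s ≤ s ^ 2 / 4 + 100 := by nlinarith [sq_nonneg (s - 4 * l)]
  have h2 : (ρ - 1 / 2) * (s ^ 2 + τ ^ 2 + s' ^ 2 + τ' ^ 2) ≥ 0 :=
    mul_nonneg (by linarith) (by positivity)
  have e1 : (l - ρ * (s + τ) + y) * (s + τ) + (l - ρ * (s - τ) + z) * (s - τ)
      - (ρ * (s' + τ') + y') * (s' + τ') - (ρ * (s' - τ') + z') * (s' - τ')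
      = 2 * l * s - s ^ 2 - τ ^ 2 - s' ^ 2 - τ' ^ 2
        - 2 * ((ρ - 1 / 2) * (s ^ 2 + τ ^ 2 + s' ^ 2 + τ' ^ 2))
        + y * s + y * τ + z * s - z * τ - y' * s' - y' * τ' - z' * s' + z' * τ' := by ring
  rw [e1]
  nlinarith [sq_nonneg (s - 8 * y), sq_nonneg (s - 8 * z), sq_nonneg (s' + 8 * y'),
    sq_nonneg (s' + 8 * z'), sq_nonneg (y - τ), sq_nonneg (z + τ), sq_nonneg (y' + τ'),
    sq_nonneg (z' - τ'), sq_nonneg τ, sq_nonneg τ', sq_nonneg y, sq_nonneg z, sq_nonneg y',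
    sq_nonneg z', sq_nonneg s, sq_nonneg s']

/-- the outer certificate (unscaled) -/
noncomputable def gout (e κ : ℝ) (x : St) : ℝ :=
  100 * |N0 x| + 100 * |N2 e x| + (Z2 x ^ 2 + Z3 x ^ 2 + Z5 x ^ 2) + κ * (psi x - 200)

lemma fin_bound {κ t T a b c d B ω : ℝ} (hκ0 : 0 < κ) (hκ1 : κ ≤ 1) (ht : t = κ / 28000)
    (ha : a ≤ 20 * t * B + (20 * T + 2) * ω) (hb : b ≤ 50 * t * B + (50 * T + 20) * ω)
    (hc : c ≤ 80 * ω) (hd : d ≤ - (1 / 4) * B + 20 * ω) (hω : 0 ≤ ω) :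
    100 * a + 100 * b + c + κ * d ≤ (7000 * T + 2300) * ω := by
  have h1 : κ * d ≤ κ * (- (1 / 4) * B + 20 * ω) := mul_le_mul_of_nonneg_left hd hκ0.le
  have h2 : κ * ω ≤ ω := by nlinarith
  rw [ht] at ha hb
  nlinarith

lemma out_le_W1 {κ e : ℝ} (hκ0 : 0 < κ) (hκ1 : κ ≤ 1) (he0 : 0 ≤ e) (he1 : e ≤ 1) (x : St) :
    gout e κ x ≤ (7000 * (7000 / κ) + 2300) * W1 x := by
  set s := (x 2 + x 3) / 2 with hs
  set τ := (x 2 - x 3) / 2 with hτ
  set y := x 0 + x 2 / 2 - 5 with hy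
  set z := x 1 + x 3 / 2 - 5 with hz
  set s' := (x 6 + x 7) / 2 with hs'
  set τ' := (x 6 - x 7) / 2 with hτ'
  set y' := x 4 - x 6 / 2 with hy'
  set z' := x 5 - x 7 / 2 with hz'
  have ht0 : 0 < κ / 28000 := by positivity
  have hT : 7000 / κ = 1 / (4 * (κ / 28000)) := by field_simp; norm_num
  have hρ : |(1 / 2 : ℝ)| ≤ 2 := by rw [abs_of_pos] <;> norm_num
  have hl : |(5 : ℝ)| ≤ 5 := by rw [abs_of_pos] <;> norm_num
  have b0 := n0_bound ht0 hT hρ hl s τ y z s' τ' y' z'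
  have b2 := n2_bound ht0 hT hρ hl he0 he1 s τ y z s' τ' y' z'
  have bp := psi_bound (ρ := 1 / 2) (le_refl _) hl s τ y z s' τ' y' z'
  have e0 : (5 - 1 / 2 * (s + τ) + y) * (s + τ) - (5 - 1 / 2 * (s - τ) + z) * (s - τ)
      - (1 / 2 * (s' + τ') + y') * (s' + τ') + (1 / 2 * (s' - τ') + z') * (s' - τ') = N0 x := by
    simp only [N0, hs, hτ, hy, hz, hs', hτ', hy', hz']; ring
  have e2 : ((s' + τ') * (s - τ) - (s + τ) * (s' - τ'))
      - e * ((5 - 1 / 2 * (s + τ) + y) * (1 / 2 * (s' - τ') + z')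
        - (1 / 2 * (s' + τ') + y') * (5 - 1 / 2 * (s - τ) + z)) = N2 e x := by
    simp only [N2, hs, hτ, hy, hz, hs', hτ', hy', hz']; ring
  have ep : (5 - 1 / 2 * (s + τ) + y) * (s + τ) + (5 - 1 / 2 * (s - τ) + z) * (s - τ)
      - (1 / 2 * (s' + τ') + y') * (s' + τ') - (1 / 2 * (s' - τ') + z') * (s' - τ') - 200
      = psi x - 200 := by
    simp only [psi, hs, hτ, hy, hz, hs', hτ', hy', hz']; ring
  rw [e0] at b0
  rw [e2] at b2
  rw [ep] at bp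
  have z2 : Z2 x = y' - τ' := by simp only [Z2, hτ', hy']; ring
  have z3 : Z3 x = z' + τ' := by simp only [Z3, hτ', hz']; ring
  have z5 : Z5 x = 5 * τ + 2 * y - 3 * z := by simp only [Z5, hτ, hy, hz]; ring
  have hom : om τ y z τ' y' z' ≤ W1 x := by
    have : W1 x = 2 * (y ^ 2 + z ^ 2) + 24 / 13 * τ ^ 2 + 2 * (y' ^ 2 + z' ^ 2)
        + 24 / 13 * τ' ^ 2 := by
      simp only [W1, hτ, hy, hz, hτ', hy', hz']; ring
    rw [this, om]
    nlinarith [sq_nonneg y, sq_nonneg z, sq_nonneg τ, sq_nonneg y', sq_nonneg z', sq_nonneg τ']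
  have hom0 : 0 ≤ om τ y z τ' y' z' := by unfold om; positivity
  have bz : Z2 x ^ 2 + Z3 x ^ 2 + Z5 x ^ 2 ≤ 80 * om τ y z τ' y' z' := by
    rw [z2, z3, z5, om]
    nlinarith [sq_nonneg (y' + τ'), sq_nonneg (z' - τ'), sq_nonneg (5 * τ - 2 * y),
      sq_nonneg (5 * τ + 3 * z), sq_nonneg (2 * y + 3 * z), sq_nonneg y, sq_nonneg z,
      sq_nonneg τ, sq_nonneg y', sq_nonneg z', sq_nonneg τ']
  have hfin := fin_bound hκ0 hκ1 rfl b0 b2 bz bp hom0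
  have hC : 0 ≤ 7000 * (7000 / κ) + 2300 := by positivity
  unfold gout
  exact hfin.trans (mul_le_mul_of_nonneg_left hom hC)

lemma out_le_W0 {κ e : ℝ} (hκ0 : 0 < κ) (hκ1 : κ ≤ 1) (he0 : 0 ≤ e) (he1 : e ≤ 1) (x : St) :
    gout e κ x ≤ (7000 * (7000 / κ) + 2300) * (3 / 2) * W0 x := by
  set s := (x 2 - x 3) / 2 with hs
  set τ := (x 2 + x 3) / 2 with hτ
  set y := x 0 + 3 / 2 * x 2 + 1 with hy
  set z := -(x 1 + 3 / 2 * x 3 - 1) with hz
  set s' := (x 6 - x 7) / 2 with hs'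
  set τ' := (x 6 + x 7) / 2 with hτ'
  set y' := x 4 - 3 / 2 * x 6 with hy'
  set z' := -(x 5 - 3 / 2 * x 7) with hz'
  have ht0 : 0 < κ / 28000 := by positivity
  have hT : 7000 / κ = 1 / (4 * (κ / 28000)) := by field_simp; norm_num
  have hρ : |(3 / 2 : ℝ)| ≤ 2 := by rw [abs_of_pos] <;> norm_num
  have hl : |(-1 : ℝ)| ≤ 5 := by rw [abs_neg, abs_of_pos] <;> norm_num
  have b0 := n0_bound ht0 hT hρ hl s τ y z s' τ' y' z'
  have b2 := n2_bound ht0 hT hρ hl he0 he1 s τ y z s' τ' y' z'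
  have bp := psi_bound (ρ := 3 / 2) (by norm_num) hl s τ y z s' τ' y' z'
  have e0 : (-1 - 3 / 2 * (s + τ) + y) * (s + τ) - (-1 - 3 / 2 * (s - τ) + z) * (s - τ)
      - (3 / 2 * (s' + τ') + y') * (s' + τ') + (3 / 2 * (s' - τ') + z') * (s' - τ') = N0 x := by
    simp only [N0, hs, hτ, hy, hz, hs', hτ', hy', hz']; ring
  have e2 : ((s' + τ') * (s - τ) - (s + τ) * (s' - τ'))
      - e * ((-1 - 3 / 2 * (s + τ) + y) * (3 / 2 * (s' - τ') + z')
        - (3 / 2 * (s' + τ') + y') * (-1 - 3 / 2 * (s - τ) + z)) = -(N2 e x) := by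
    simp only [N2, hs, hτ, hy, hz, hs', hτ', hy', hz']; ring
  have ep : (-1 - 3 / 2 * (s + τ) + y) * (s + τ) + (-1 - 3 / 2 * (s - τ) + z) * (s - τ)
      - (3 / 2 * (s' + τ') + y') * (s' + τ') - (3 / 2 * (s' - τ') + z') * (s' - τ') - 200
      = psi x - 200 := by
    simp only [psi, hs, hτ, hy, hz, hs', hτ', hy', hz']; ring
  rw [e0] at b0
  rw [e2, abs_neg] at b2
  rw [ep] at bp
  have z2 : Z2 x = y' + τ' := by simp only [Z2, hτ', hy']; ring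
  have z3 : Z3 x = τ' - z' := by simp only [Z3, hτ', hz']; ring
  have z5 : Z5 x = τ + 2 * y + 3 * z := by simp only [Z5, hτ, hy, hz]; ring
  have hom : om τ y z τ' y' z' ≤ 3 / 2 * W0 x := by
    have : W0 x = 2 / 3 * (y ^ 2 + z ^ 2) + 24 / 13 * τ ^ 2 + 2 / 3 * (y' ^ 2 + z' ^ 2)
        + 24 / 13 * τ' ^ 2 := by
      simp only [W0, hτ, hy, hz, hτ', hy', hz']; ring
    rw [this, om]
    nlinarith [sq_nonneg y, sq_nonneg z, sq_nonneg τ, sq_nonneg y', sq_nonneg z', sq_nonneg τ']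
  have hom0 : 0 ≤ om τ y z τ' y' z' := by unfold om; positivity
  have bz : Z2 x ^ 2 + Z3 x ^ 2 + Z5 x ^ 2 ≤ 80 * om τ y z τ' y' z' := by
    rw [z2, z3, z5, om]
    nlinarith [sq_nonneg (y' - τ'), sq_nonneg (z' + τ'), sq_nonneg (τ - 2 * y),
      sq_nonneg (τ - 3 * z), sq_nonneg (2 * y - 3 * z), sq_nonneg y, sq_nonneg z,
      sq_nonneg τ, sq_nonneg y', sq_nonneg z', sq_nonneg τ']
  have hfin := fin_bound hκ0 hκ1 rfl b0 b2 bz bp hom0
  have hC : 0 ≤ 7000 * (7000 / κ) + 2300 := by positivity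
  unfold gout
  rw [mul_assoc]
  exact hfin.trans (mul_le_mul_of_nonneg_left hom hC)

end Pool.Agent.Lib.MP_2a9317_an.T2
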