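import Pool.Agent.Lib.MP_2a9317_an.T2.Trans
import Pool.Agent.Lib.MP_2a9317_an.T2.Bnd

set_option autoImplicit false

namespace Pool.Agent.Lib.MP_2a9317_an.T2

open Set

/-- gluing of convex functions on the line -/
lemma glue {f h D : ℝ → ℝ} {R : ℝ} (hf : ConvexOn ℝ univ f) (hh : ConvexOn ℝ univ h)
    (hD : Continuous D) (hb : ∀ t, D t = R → h t ≤ f t) :
    ConvexOn ℝ univ (fun t => if D t ≤ R then max (f t) (h t) else f t) := by
  classical
  set g : ℝ → ℝ := fun t => if D t ≤ R then max (f t) (h t) else f t with hg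
  have fg : ∀ t, f t ≤ g t := by
    intro t; simp only [hg]; split_ifs
    · exact le_max_left _ _
    · exact le_rfl
  refine ⟨convex_univ, ?_⟩
  intro x _ y _ a b ha hb' hab
  simp only [smul_eq_mul]
  set t := a * x + b * y with ht
  have hft : f t ≤ a * g x + b * g y := by
    have := hf.2 (mem_univ x) (mem_univ y) ha hb' hab
    simp only [smul_eq_mul] at this
    exact this.trans (add_le_add (mul_le_mul_of_nonneg_left (fg x) ha)
      (mul_le_mul_of_nonneg_left (fg y) hb'))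
  show g t ≤ _
  by_cases hDt : D t ≤ R
  swap
  · have : g t = f t := by simp only [hg, if_neg hDt]
    rw [this]; exact hft
  have hgt : g t = max (f t) (h t) := by simp only [hg, if_pos hDt]
  rw [hgt]
  refine max_le hft ?_
  -- a point of the segment from `t` to an end point `w` where `h` is below the chord
  have ends : ∀ w, ∃ m ∈ Icc (0 : ℝ) 1, h (t + m * (w - t)) ≤ (1 - m) * (a * g x + b * g y) + m * g w
      ∧ (m = 0 → h t ≤ a * g x + b * g y) := by
    intro w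
    by_cases hw : D w ≤ R
    · refine ⟨1, ⟨zero_le_one, le_rfl⟩, ?_, fun h => absurd h one_ne_zero⟩
      have : g w = max (f w) (h w) := by simp only [hg, if_pos hw]
      have e : t + 1 * (w - t) = w := by ring
      rw [e, this]
      simp
    · push Not at hw
      have hcont : ContinuousOn (fun m : ℝ => D (t + m * (w - t))) (Icc 0 1) := by
        apply Continuous.continuousOn; fun_prop
      have hmem : R ∈ Icc (D (t + 0 * (w - t))) (D (t + 1 * (w - t))) := by
        rw [show t + 0 * (w - t) = t by ring, show t + 1 * (w - t) = w by ring]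
        exact ⟨hDt, hw.le⟩
      obtain ⟨m, hm, hmR⟩ := intermediate_value_Icc zero_le_one hcont hmem
      refine ⟨m, hm, ?_, ?_⟩
      · have h1 : h (t + m * (w - t)) ≤ f (t + m * (w - t)) := hb _ hmR
        have h2 := hf.2 (mem_univ t) (mem_univ w) (sub_nonneg.2 hm.2) hm.1 (by ring)
        simp only [smul_eq_mul] at h2
        have e : (1 - m) * t + m * w = t + m * (w - t) := by ring
        rw [e] at h2
        calc _ ≤ _ := h1
          _ ≤ _ := h2
          _ ≤ _ := add_le_add (mul_le_mul_of_nonneg_left hft (sub_nonneg.2 hm.2))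
            (mul_le_mul_of_nonneg_left (fg w) hm.1)
      · intro hm0
        rw [hm0] at hmR
        simp only [zero_mul, add_zero] at hmR
        exact (hb t hmR).trans hft
  obtain ⟨m, ⟨hm0, hm1⟩, hm, hmz⟩ := ends x
  obtain ⟨n, ⟨hn0, hn1⟩, hn, hnz⟩ := ends y
  rcases eq_or_lt_of_le hm0 with h0 | hmp
  · exact hmz h0.symm
  rcases eq_or_lt_of_le hn0 with h0 | hnp
  · exact hnz h0.symm
  set L := a * g x + b * g y with hL
  -- `t` is a convex combination of the two points with weights `a n / (a n + b m)`, ...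
  have hs : 0 < a * n + b * m := by
    rcases eq_or_lt_of_le ha with h0 | h0
    · have : b = 1 := by linarith
      rw [← h0, this]; linarith
    · have := mul_pos h0 hnp
      have := mul_nonneg hb' hm0
      linarith
  have hc := hh.2 (mem_univ (t + m * (x - t))) (mem_univ (t + n * (y - t)))
    (show 0 ≤ a * n / (a * n + b * m) by positivity)
    (show 0 ≤ b * m / (a * n + b * m) by positivity)
    (by field_simp)
  simp only [smul_eq_mul] at hc
  have e1 : a * n / (a * n + b * m) * (t + m * (x - t)) + b * m / (a * n + b * m) * (t + n * (y - t))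
      = t := by
    have h3 : a * (x - t) + b * (y - t) = 0 := by
      have : b = 1 - a := by linarith
      rw [ht, this]; ring
    field_simp
    linear_combination (m * n) * h3
  rw [e1] at hc
  have h4 : a * n / (a * n + b * m) * h (t + m * (x - t)) + b * m / (a * n + b * m) * h (t + n * (y - t))
      ≤ a * n / (a * n + b * m) * ((1 - m) * L + m * g x)
        + b * m / (a * n + b * m) * ((1 - n) * L + n * g y) :=
    add_le_add (mul_le_mul_of_nonneg_left hm (by positivity))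
      (mul_le_mul_of_nonneg_left hn (by positivity))
  refine (hc.trans h4).trans (le_of_eq ?_)
  have h5 : a * g x + b * g y = L := rfl
  field_simp
  linear_combination (m * n) * h5 + (- m * n * L) * hab

/-- the inner certificate (unscaled) -/
noncomputable def gin (e κ c r : ℝ) (x : St) : ℝ :=
  N0 x ^ 2 + N2 e x ^ 2 + (Z2 x ^ 2 + Z3 x ^ 2 + Z5 x ^ 2) + κ * (psi x - 200) + c * (r - DD x)

/-- the certificate (unscaled) -/
noncomputable def gg (e κ c r : ℝ) (x : St) : ℝ :=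
  if DD x ≤ r then max (gout e κ x) (gin e κ c r x) else gout e κ x

lemma convexOn_of_ineq {f : ℝ → ℝ} (h : ∀ x y a b : ℝ, 0 ≤ a → 0 ≤ b → a + b = 1 →
    f (a * x + b * y) ≤ a * f x + b * f y) : ConvexOn ℝ univ f :=
  ⟨convex_univ, fun x _ y _ a b ha hb hab => h x y a b ha hb hab⟩

lemma conv_abs (n v : ℝ) {x y a b : ℝ} (ha : 0 ≤ a) (hb : 0 ≤ b) (hab : a + b = 1) :
    |n + (a * x + b * y) * v| ≤ a * |n + x * v| + b * |n + y * v| := by
  have e : n + (a * x + b * y) * v = a * (n + x * v) + b * (n + y * v) := by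
    have : b = 1 - a := by linarith
    rw [this]; ring
  rw [e]
  calc _ ≤ |a * (n + x * v)| + |b * (n + y * v)| := abs_add_le _ _
    _ = _ := by rw [abs_mul, abs_mul, abs_of_nonneg ha, abs_of_nonneg hb]

lemma conv_sq (n v : ℝ) {x y a b : ℝ} (ha : 0 ≤ a) (hb : 0 ≤ b) (hab : a + b = 1) :
    (n + (a * x + b * y) * v) ^ 2 ≤ a * (n + x * v) ^ 2 + b * (n + y * v) ^ 2 := by
  have hb2 : b = 1 - a := by linarith
  have h := mul_nonneg (mul_nonneg ha hb) (sq_nonneg ((x - y) * v))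
  rw [hb2] at h ⊢
  nlinarith [h]

lemma gout_line {e κ : ℝ} {x J : St} (hJ : IsR1 e J) :
    ConvexOn ℝ univ (fun t : ℝ => gout e κ (x + t • J)) := by
  apply convexOn_of_ineq
  intro s t a b ha hb hab
  simp only [gout, N0_line hJ, N2_line hJ, Z2_line, Z3_line, Z5_line, psi_line hJ]
  have h1 := conv_abs (N0 x) (dN0 x J) (x := s) (y := t) ha hb hab
  have h2 := conv_abs (N2 e x) (dN2 e x J) (x := s) (y := t) ha hb hab
  have h3 := conv_sq (Z2 x) (Z2 J) (x := s) (y := t) ha hb hab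
  have h4 := conv_sq (Z3 x) (Z3 J) (x := s) (y := t) ha hb hab
  have h5 := conv_sq (Z5 x) (Z5L J) (x := s) (y := t) ha hb hab
  set P := (x 0 * J 2 + J 0 * x 2 + x 1 * J 3 + J 1 * x 3
      - x 4 * J 6 - J 4 * x 6 - x 5 * J 7 - J 5 * x 7) with hP
  have h6 : κ * (psi x + (a * s + b * t) * P - 200)
      = a * (κ * (psi x + s * P - 200)) + b * (κ * (psi x + t * P - 200)) := by
    have : b = 1 - a := by linarith
    rw [this]; ring
  linarith

lemma gin_line {e κ c r : ℝ} {x J : St} (hJ : IsR1 e J) (hA : c * sq J ≤ AA e x J) :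
    ConvexOn ℝ univ (fun t : ℝ => gin e κ c r (x + t • J)) := by
  apply convexOn_of_ineq
  intro s t a b ha hb hab
  simp only [gin, N0_line hJ, N2_line hJ, Z2_line, Z3_line, Z5_line, psi_line hJ, DD_line]
  have h := mul_nonneg (mul_nonneg (mul_nonneg ha hb) (sq_nonneg (s - t))) (sub_nonneg.2 hA)
  have hb2 : b = 1 - a := by linarith
  unfold AA at h
  set n0 := N0 x
  set n2 := N2 e x
  set z2 := Z2 x
  set z3 := Z3 x
  set z5 := Z5 x
  set d0 := dN0 x J
  set d2 := dN2 e x J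
  set y2 := Z2 J
  set y3 := Z3 J
  set y5 := Z5L J
  set P := (x 0 * J 2 + J 0 * x 2 + x 1 * J 3 + J 1 * x 3
      - x 4 * J 6 - J 4 * x 6 - x 5 * J 7 - J 5 * x 7)
  set S := sq J
  set Q := ∑ i, (x i - xb i) * J i
  set d := DD x
  set p := psi x
  rw [hb2] at h ⊢
  linear_combination h

lemma x_bound {x : St} (h : DD x ≤ 1) (i : Fin 8) : |x i| ≤ 5 ∧ |x i - xb i| ≤ 1 := by
  have h1 : (x i - xb i) ^ 2 ≤ 1 :=
    (Finset.single_le_sum (f := fun i => (x i - xb i) ^ 2) (fun i _ => sq_nonneg _)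
      (Finset.mem_univ i)).trans h
  have h2 : |x i - xb i| ≤ 1 := by
    rw [← sq_abs] at h1
    have := abs_nonneg (x i - xb i)
    nlinarith
  refine ⟨?_, h2⟩
  have h3 : -4 ≤ xb i ∧ xb i ≤ 4 := by
    fin_cases i <;> simp [xb] <;> norm_num
  rw [abs_le] at h2 ⊢
  exact ⟨by linarith [h2.1, h3.1], by linarith [h2.2, h3.2]⟩

lemma mul_bound {a b : ℝ} (ha : |a| ≤ 5) (hb : |b| ≤ 5) : -25 ≤ a * b ∧ a * b ≤ 25 := by
  have : |a * b| ≤ 25 := by
    rw [abs_mul]
    calc _ ≤ (5 : ℝ) * 5 := mul_le_mul ha hb (abs_nonneg _) (by norm_num)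
      _ = 25 := by norm_num
  exact abs_le.1 this

lemma N0_bound {x : St} (h : DD x ≤ 1) : |N0 x| ≤ 100 := by
  have m1 := mul_bound (x_bound h 0).1 (x_bound h 2).1
  have m2 := mul_bound (x_bound h 1).1 (x_bound h 3).1
  have m3 := mul_bound (x_bound h 4).1 (x_bound h 6).1
  have m4 := mul_bound (x_bound h 5).1 (x_bound h 7).1
  rw [abs_le]
  unfold N0
  constructor <;> linarith [m1.1, m1.2, m2.1, m2.2, m3.1, m3.2, m4.1, m4.2]

lemma N2_bound {e : ℝ} (he0 : 0 ≤ e) (he1 : e ≤ 1) {x : St} (h : DD x ≤ 1) :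
    |N2 e x| ≤ 100 := by
  have m1 := mul_bound (x_bound h 6).1 (x_bound h 3).1
  have m2 := mul_bound (x_bound h 2).1 (x_bound h 7).1
  have m3 := mul_bound (x_bound h 0).1 (x_bound h 5).1
  have m4 := mul_bound (x_bound h 4).1 (x_bound h 1).1
  have m5 : |e * (x 0 * x 5 - x 4 * x 1)| ≤ 50 := by
    rw [abs_mul, abs_of_nonneg he0]
    have : |x 0 * x 5 - x 4 * x 1| ≤ 50 := by
      rw [abs_le]; constructor <;> linarith [m3.1, m3.2, m4.1, m4.2]
    nlinarith [abs_nonneg (x 0 * x 5 - x 4 * x 1)]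
  rw [abs_le] at m5 ⊢
  unfold N2
  constructor <;> linarith [m1.1, m1.2, m2.1, m2.2, m5.1, m5.2]

lemma sq_le_mul_abs {a : ℝ} (h : |a| ≤ 100) : a ^ 2 ≤ 100 * |a| := by
  rw [← sq_abs]
  nlinarith [abs_nonneg a]

lemma gin_le_gout {e κ c r : ℝ} (he0 : 0 ≤ e) (he1 : e ≤ 1) (hr : r ≤ 1) {x : St}
    (h : DD x = r) : gin e κ c r x ≤ gout e κ x := by
  have h1 := sq_le_mul_abs (N0_bound (x := x) (by rw [h]; exact hr))
  have h2 := sq_le_mul_abs (N2_bound he0 he1 (x := x) (by rw [h]; exact hr))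
  unfold gin gout
  rw [h, sub_self, mul_zero]
  linarith

lemma W_ball {x : St} (h : DD x ≤ 1) : 1 ≤ W1 x ∧ 1 ≤ W0 x := by
  have h0 := abs_le.1 (x_bound h 0).2
  have h2 := abs_le.1 (x_bound h 2).2
  rw [xb0] at h0
  rw [xb2] at h2
  constructor
  · unfold W1
    have : 1 ≤ (x 0 + x 2 / 2 - 5) ^ 2 := by nlinarith [h0.1, h0.2, h2.1, h2.2]
    nlinarith [sq_nonneg (x 1 + x 3 / 2 - 5), sq_nonneg (x 2 - x 3), sq_nonneg (x 4 - x 6 / 2),
      sq_nonneg (x 5 - x 7 / 2), sq_nonneg (x 6 - x 7)]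
  · unfold W0
    have : 3 / 2 ≤ (x 0 + 3 / 2 * x 2 + 1) ^ 2 := by
      have : 17 / 12 ≤ x 0 + 3 / 2 * x 2 + 1 := by linarith [h0.1, h2.1]
      nlinarith
    nlinarith [sq_nonneg (x 1 + 3 / 2 * x 3 - 1), sq_nonneg (x 2 + x 3),
      sq_nonneg (x 4 - 3 / 2 * x 6), sq_nonneg (x 5 - 3 / 2 * x 7), sq_nonneg (x 6 + x 7)]

lemma gin_bound {e κ c r : ℝ} (he0 : 0 ≤ e) (he1 : e ≤ 1) (hκ : 0 ≤ κ) (hc0 : 0 ≤ c)
    (hc : c ≤ 1) (hr0 : 0 ≤ r) (hr : r ≤ 1) {x : St} (h : DD x ≤ r) : gin e κ c r x ≤ 30000 := by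
  have hx : DD x ≤ 1 := h.trans hr
  have b := fun i => abs_le.1 (x_bound hx i).1
  have h1 : N0 x ^ 2 ≤ 10000 := by
    have := N0_bound hx
    rw [← sq_abs]; nlinarith [abs_nonneg (N0 x)]
  have h2 : N2 e x ^ 2 ≤ 10000 := by
    have := N2_bound he0 he1 hx
    rw [← sq_abs]; nlinarith [abs_nonneg (N2 e x)]
  have h3 : Z2 x ^ 2 ≤ 400 := by
    have : |Z2 x| ≤ 20 := by
      rw [abs_le]; unfold Z2
      constructor <;> linarith [(b 4).1, (b 4).2, (b 6).1, (b 6).2, (b 7).1, (b 7).2]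
    rw [← sq_abs]; nlinarith [abs_nonneg (Z2 x)]
  have h4 : Z3 x ^ 2 ≤ 400 := by
    have : |Z3 x| ≤ 20 := by
      rw [abs_le]; unfold Z3
      constructor <;> linarith [(b 5).1, (b 5).2, (b 6).1, (b 6).2, (b 7).1, (b 7).2]
    rw [← sq_abs]; nlinarith [abs_nonneg (Z3 x)]
  have h5 : Z5 x ^ 2 ≤ 4900 := by
    have : |Z5 x| ≤ 70 := by
      rw [abs_le]; unfold Z5
      constructor <;> linarith [(b 0).1, (b 0).2, (b 1).1, (b 1).2, (b 2).1, (b 2).2,
        (b 3).1, (b 3).2]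
    rw [← sq_abs]; nlinarith [abs_nonneg (Z5 x)]
  have h6 : κ * (psi x - 200) ≤ 0 := by
    have m1 := mul_bound (x_bound hx 0).1 (x_bound hx 2).1
    have m2 := mul_bound (x_bound hx 1).1 (x_bound hx 3).1
    have m3 := mul_bound (x_bound hx 4).1 (x_bound hx 6).1
    have m4 := mul_bound (x_bound hx 5).1 (x_bound hx 7).1
    have : psi x - 200 ≤ 0 := by unfold psi; linarith [m1.2, m2.2, m3.1, m4.1]
    exact mul_nonpos_of_nonneg_of_nonpos hκ this
  have h7 : c * (r - DD x) ≤ 1 := by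
    have := DD_nonneg x
    nlinarith
  unfold gin
  linarith

lemma DD_xb : DD xb = 0 := by simp [DD]

lemma N0_xb : N0 xb = 0 := by
  simp only [N0, xb0, xb1, xb2, xb3, xb4, xb5, xb6, xb7]; norm_num

lemma N2_xb (e : ℝ) : N2 e xb = 0 := by
  simp only [N2, xb0, xb1, xb2, xb3, xb4, xb5, xb6, xb7]; ring

/-- the certificate -/
theorem exists_cert : ∃ e0 > (0 : ℝ), ∃ g0 > (0 : ℝ), ∀ e : ℝ, 0 ≤ e → e ≤ e0 → ∃ g : St → ℝ,
    (∀ x, g x ≤ W1 x) ∧ (∀ x, g x ≤ W0 x) ∧ g0 ≤ g xb ∧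
    ∀ (x J : St) (θ : ℝ), IsR1 e J → 0 ≤ θ → θ ≤ 1 →
      g x ≤ θ * g (x + (1 - θ) • J) + (1 - θ) * g (x - θ • J) := by
  obtain ⟨r, hr0, hr1, c', hc'0, H'⟩ := trans_near
  obtain ⟨c, hc0, hc1, H⟩ : ∃ c : ℝ, 0 < c ∧ c ≤ 1 ∧ ∀ e x J, 0 ≤ e → e ≤ r → DD x ≤ r →
      IsR1 e J → c * sq J ≤ AA e x J := by
    refine ⟨min c' 1, lt_min hc'0 one_pos, min_le_right _ _, fun e x J h1 h2 h3 h4 => ?_⟩
    exact (mul_le_mul_of_nonneg_right (min_le_left _ _) (sq_nonneg' J)).trans (H' e x J h1 h2 h3 h4)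
  -- the parameter `κ`
  obtain ⟨κ, hκ0, hκ1, hκ2⟩ : ∃ κ : ℝ, 0 < κ ∧ κ ≤ 1 ∧ κ * 200 ≤ c * r / 2 := by
    refine ⟨min 1 (c * r / 400), lt_min one_pos (by positivity), min_le_left _ _, ?_⟩
    have := min_le_right (1 : ℝ) (c * r / 400)
    linarith
  set C := max 30000 ((7000 * (7000 / κ) + 2300) * (3 / 2)) with hC
  have hC1 : (30000 : ℝ) ≤ C := le_max_left _ _
  have hC2 : (7000 * (7000 / κ) + 2300) * (3 / 2) ≤ C := le_max_right _ _
  have hCpos : 0 < C := by linarith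
  have hK : 0 ≤ 7000 * (7000 / κ) + 2300 := by positivity
  refine ⟨r, hr0, C⁻¹ * (c * r / 2), by positivity, fun e he0 her => ?_⟩
  have he1 : e ≤ 1 := her.trans hr1
  have W1n : ∀ x, 0 ≤ W1 x := fun x => by unfold W1; positivity
  have W0n : ∀ x, 0 ≤ W0 x := fun x => by unfold W0; positivity
  have gC1 : ∀ x, gg e κ c r x ≤ C * W1 x := by
    intro x
    have ho : gout e κ x ≤ C * W1 x := by
      refine (out_le_W1 hκ0 hκ1 he0 he1 x).trans (mul_le_mul_of_nonneg_right ?_ (W1n x))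
      linarith
    unfold gg
    split_ifs with h
    · refine max_le ho ?_
      have h1 := gin_bound he0 he1 hκ0.le hc0.le hc1 hr0.le hr1 (κ := κ) h
      have h2 := (W_ball (h.trans hr1)).1
      nlinarith
    · exact ho
  have gC0 : ∀ x, gg e κ c r x ≤ C * W0 x := by
    intro x
    have ho : gout e κ x ≤ C * W0 x :=
      (out_le_W0 hκ0 hκ1 he0 he1 x).trans (mul_le_mul_of_nonneg_right hC2 (W0n x))
    unfold gg
    split_ifs with h
    · refine max_le ho ?_
      have h1 := gin_bound he0 he1 hκ0.le hc0.le hc1 hr0.le hr1 (κ := κ) h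
      have h2 := (W_ball (h.trans hr1)).2
      nlinarith
    · exact ho
  refine ⟨fun x => C⁻¹ * gg e κ c r x, ?_, ?_, ?_, ?_⟩
  · intro x
    have := mul_le_mul_of_nonneg_left (gC1 x) (inv_nonneg.2 hCpos.le)
    rwa [← mul_assoc, inv_mul_cancel₀ hCpos.ne', one_mul] at this
  · intro x
    have := mul_le_mul_of_nonneg_left (gC0 x) (inv_nonneg.2 hCpos.le)
    rwa [← mul_assoc, inv_mul_cancel₀ hCpos.ne', one_mul] at this
  · apply mul_le_mul_of_nonneg_left _ (inv_nonneg.2 hCpos.le)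
    have h1 : gin e κ c r xb ≤ gg e κ c r xb := by
      unfold gg
      rw [if_pos (by rw [DD_xb]; exact hr0.le)]
      exact le_max_right _ _
    refine le_trans ?_ h1
    unfold gin
    rw [DD_xb, N0_xb, N2_xb]
    have h2 : 0 ≤ psi xb := by
      simp only [psi, xb0, xb1, xb2, xb3, xb4, xb5, xb6, xb7]; norm_num
    nlinarith [sq_nonneg (Z2 xb), sq_nonneg (Z3 xb), sq_nonneg (Z5 xb), mul_nonneg hκ0.le h2]
  · intro x J θ hJ h0 h1
    have hconv : ConvexOn ℝ univ (fun t : ℝ => gg e κ c r (x + t • J)) := by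
      by_cases hm : ∃ t0 : ℝ, DD (x + t0 • J) ≤ r
      · obtain ⟨t0, ht0⟩ := hm
        have hA : c * sq J ≤ AA e x J := by
          have := H e (x + t0 • J) J he0 her ht0 hJ
          simpa only [AA, dN0_line hJ, dN2_line hJ] using this
        exact glue (gout_line hJ) (gin_line hJ hA)
          (D := fun t : ℝ => DD (x + t • J)) (R := r)
          (continuous_DD.comp (by fun_prop))
          (fun t ht => gin_le_gout he0 he1 hr1 ht)
      · push Not at hm
        have : (fun t : ℝ => gg e κ c r (x + t • J)) = fun t : ℝ => gout e κ (x + t • J) := by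
          ext t
          unfold gg
          rw [if_neg (not_le.2 (hm t))]
        rw [this]
        exact gout_line hJ
    have h2 := hconv.2 (mem_univ (1 - θ)) (mem_univ (-θ)) h0 (sub_nonneg.2 h1) (by ring)
    simp only [smul_eq_mul] at h2
    have e1 : θ * (1 - θ) + (1 - θ) * -θ = 0 := by ring
    rw [e1, zero_smul, add_zero] at h2
    have e2 : x + (-θ) • J = x - θ • J := by rw [neg_smul, sub_eq_add_neg]
    rw [e2] at h2
    have h3 := mul_le_mul_of_nonneg_left h2 (inv_nonneg.2 hCpos.le)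
    calc _ ≤ _ := h3
      _ = _ := by ring

end Pool.Agent.Lib.MP_2a9317_an.T2
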