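import Pool.Agent.Lib.MP_2a9317_an.Lin
import Pool.Agent.Lib.MP_2a9317_an.T2.Cert

set_option autoImplicit false

namespace Pool.Agent.Lib.MP_2a9317_an.T2

open Matrix

/-! ### Lower bounds for laminates from rank-one convex functions of two loads -/

section
variable {n k : ℕ} (L : Fin k → Matrix (Ent n) (Ent n) ℝ) (G : (Ent n → ℝ) → (Ent n → ℝ) → ℝ)

/-- a function of two loads which is rank-one convex and below the phases is below all laminates -/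
theorem lam_bound
    (hR : ∀ (F F' : Ent n → ℝ) (ξ : Fin 2 → ℝ) (a a' : Fin n → ℝ) (θ : ℝ), 0 < θ → θ < 1 →
      G F F' ≤ θ * G (F + (1 - θ) • tens ξ a) (F' + (1 - θ) • tens ξ a')
        + (1 - θ) * G (F - θ • tens ξ a) (F' - θ • tens ξ a'))
    (hL : ∀ j F F', G F F' ≤ linW (L j) F + linW (L j) F')
    {M : Matrix (Ent n) (Ent n) ℝ} (hM : LinLaminate L M) :
    ∀ F F', G F F' ≤ linW M F + linW M F' := by
  induction hM with
  | phase j => exact hL j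
  | layer A B M θ ξ _ _ h0 h1 hξ hM ihA ihB =>
    intro F F'
    rw [hM.2 F, hM.2 F']
    have key : ∀ a a' : Fin n → ℝ, G F F' ≤
        (θ * linW A (F + (1 - θ) • tens ξ a) + (1 - θ) * linW B (F - θ • tens ξ a))
        + (θ * linW A (F' + (1 - θ) • tens ξ a') + (1 - θ) * linW B (F' - θ • tens ξ a')) := by
      intro a a'
      have h2 := hR F F' ξ a a' θ h0 h1
      have h3 := mul_le_mul_of_nonneg_left
        (ihA (F + (1 - θ) • tens ξ a) (F' + (1 - θ) • tens ξ a')) h0.le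
      have h4 := mul_le_mul_of_nonneg_left
        (ihB (F - θ • tens ξ a) (F' - θ • tens ξ a')) (sub_pos.2 h1).le
      linarith
    have h5 : ∀ a' : Fin n → ℝ, G F F'
        - (θ * linW A (F' + (1 - θ) • tens ξ a') + (1 - θ) * linW B (F' - θ • tens ξ a'))
        ≤ ⨅ a : Fin n → ℝ, (θ * linW A (F + (1 - θ) • tens ξ a)
          + (1 - θ) * linW B (F - θ • tens ξ a)) := by
      intro a'
      apply le_ciInf
      intro a
      linarith [key a a']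
    have h6 : G F F' - (⨅ a : Fin n → ℝ, (θ * linW A (F + (1 - θ) • tens ξ a)
          + (1 - θ) * linW B (F - θ • tens ξ a)))
        ≤ ⨅ a' : Fin n → ℝ, (θ * linW A (F' + (1 - θ) • tens ξ a')
          + (1 - θ) * linW B (F' - θ • tens ξ a')) := by
      apply le_ciInf
      intro a'
      linarith [h5 a']
    linarith

theorem lam_bound_closure
    (hR : ∀ (F F' : Ent n → ℝ) (ξ : Fin 2 → ℝ) (a a' : Fin n → ℝ) (θ : ℝ), 0 < θ → θ < 1 →
      G F F' ≤ θ * G (F + (1 - θ) • tens ξ a) (F' + (1 - θ) • tens ξ a')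
        + (1 - θ) * G (F - θ • tens ξ a) (F' - θ • tens ξ a'))
    (hL : ∀ j F F', G F F' ≤ linW (L j) F + linW (L j) F')
    {M : Matrix (Ent n) (Ent n) ℝ} (hM : M ∈ linGL L) (F F' : Ent n → ℝ) :
    G F F' ≤ linW M F + linW M F' := by
  have hc : IsClosed {M : Matrix (Ent n) (Ent n) ℝ | G F F' ≤ linW M F + linW M F'} :=
    isClosed_le continuous_const ((continuous_linW _).add (continuous_linW _))
  exact closure_minimal (fun M hM => lam_bound L G hR hL hM F F') hc hM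

end

/-! ### The two phases -/

/-- the phases: energy `(F₀₀² + F₁₁²)/ρ + ρ ε² (F₁₀² + F₀₁²) + (6/13) ε² (F₁₀ + σ F₀₁)²` -/
noncomputable def LA (ε ρ σ : ℝ) : Matrix (Ent 2) (Ent 2) ℝ := Matrix.of fun q r =>
  match q, r with
  | (0, 0), (0, 0) => 1 / ρ
  | (1, 1), (1, 1) => 1 / ρ
  | (1, 0), (1, 0) => (ρ + 6 / 13) * ε ^ 2
  | (0, 1), (0, 1) => (ρ + 6 / 13 * σ ^ 2) * ε ^ 2
  | (1, 0), (0, 1) => 6 / 13 * σ * ε ^ 2
  | (0, 1), (1, 0) => 6 / 13 * σ * ε ^ 2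
  | _, _ => 0

lemma linW_LA (ε ρ σ : ℝ) (F : Ent 2 → ℝ) : linW (LA ε ρ σ) F
    = 1 / ρ * (F (0, 0) ^ 2 + F (1, 1) ^ 2) + ρ * ε ^ 2 * (F (1, 0) ^ 2 + F (0, 1) ^ 2)
      + 6 / 13 * ε ^ 2 * (F (1, 0) + σ * F (0, 1)) ^ 2 := by
  simp only [linW, dotProduct, mulVec, Fintype.sum_prod_type, Fin.sum_univ_two, LA, of_apply]
  ring

lemma LA_symm (ε ρ σ : ℝ) : (LA ε ρ σ).IsSymm := by
  ext ⟨i, j⟩ ⟨l, m⟩
  fin_cases i <;> fin_cases j <;> fin_cases l <;> fin_cases m <;> rfl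

/-- `k` phases: the two phases and stiffer copies of the first one -/
noncomputable def LP (ε : ℝ) (k : ℕ) (j : Fin k) : Matrix (Ent 2) (Ent 2) ℝ :=
  (if j.val = 1 then LA ε (1 / 2) (-1) else LA ε (3 / 2) 1)
    + (if j.val = 1 then 0 else (j.val : ℝ)) • (1 : Matrix (Ent 2) (Ent 2) ℝ)

lemma linW_add_smul (A : Matrix (Ent 2) (Ent 2) ℝ) (c : ℝ) (F : Ent 2 → ℝ) :
    linW (A + c • (1 : Matrix (Ent 2) (Ent 2) ℝ)) F = linW A F + c * (F ⬝ᵥ F) := by
  unfold linW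
  rw [add_mulVec, dotProduct_add, smul_mulVec, one_mulVec, dotProduct_smul, smul_eq_mul]

lemma linW_LP (ε : ℝ) (k : ℕ) (j : Fin k) (F : Ent 2 → ℝ) : linW (LP ε k j) F
    = (if j.val = 1 then linW (LA ε (1 / 2) (-1)) F else linW (LA ε (3 / 2) 1) F)
      + (if j.val = 1 then 0 else (j.val : ℝ)) * (F ⬝ᵥ F) := by
  unfold LP
  rw [linW_add_smul]
  split_ifs <;> rfl

lemma dot_nonneg (F : Ent 2 → ℝ) : 0 ≤ F ⬝ᵥ F := by
  unfold dotProduct
  exact Finset.sum_nonneg fun i _ => mul_self_nonneg _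

lemma LA_pos {ε ρ σ : ℝ} (hε : 0 < ε) (hρ : 0 < ρ) {F : Ent 2 → ℝ} (hF : F ≠ 0) :
    0 < linW (LA ε ρ σ) F := by
  rw [linW_LA]
  have h1 : 0 ≤ 1 / ρ * (F (0, 0) ^ 2 + F (1, 1) ^ 2) := by positivity
  have h2 : 0 ≤ ρ * ε ^ 2 * (F (1, 0) ^ 2 + F (0, 1) ^ 2) := by positivity
  have h3 : 0 ≤ 6 / 13 * ε ^ 2 * (F (1, 0) + σ * F (0, 1)) ^ 2 := by positivity
  by_contra hcon
  push Not at hcon
  have e1 : 1 / ρ * (F (0, 0) ^ 2 + F (1, 1) ^ 2) = 0 := by linarith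
  have e2 : ρ * ε ^ 2 * (F (1, 0) ^ 2 + F (0, 1) ^ 2) = 0 := by linarith
  have e3 : F (0, 0) ^ 2 + F (1, 1) ^ 2 = 0 := by
    rcases mul_eq_zero.1 e1 with h | h
    · exact absurd h (by positivity)
    · exact h
  have e4 : F (1, 0) ^ 2 + F (0, 1) ^ 2 = 0 := by
    rcases mul_eq_zero.1 e2 with h | h
    · exact absurd h (by positivity)
    · exact h
  apply hF
  ext ⟨i, l⟩
  have s1 := sq_nonneg (F (0, 0))
  have s2 := sq_nonneg (F (1, 1))
  have s3 := sq_nonneg (F (1, 0))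
  have s4 := sq_nonneg (F (0, 1))
  fin_cases i <;> fin_cases l <;> apply pow_eq_zero_iff (n := 2) (by norm_num) |>.1
  · show F (0, 0) ^ 2 = 0
    linarith
  · show F (0, 1) ^ 2 = 0
    linarith
  · show F (1, 0) ^ 2 = 0
    linarith
  · show F (1, 1) ^ 2 = 0
    linarith

lemma LP_pos {ε : ℝ} (hε : 0 < ε) (k : ℕ) (j : Fin k) {F : Ent 2 → ℝ} (hF : F ≠ 0) :
    0 < linW (LP ε k j) F := by
  rw [linW_LP]
  have h1 : 0 ≤ (if j.val = 1 then 0 else (j.val : ℝ)) * (F ⬝ᵥ F) := by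
    apply mul_nonneg _ (dot_nonneg F)
    split_ifs
    · exact le_rfl
    · exact Nat.cast_nonneg _
  split_ifs at h1 ⊢
  · have := LA_pos (σ := -1) hε (show (0 : ℝ) < 1 / 2 by norm_num) hF
    linarith
  · have := LA_pos (σ := 1) hε (show (0 : ℝ) < 3 / 2 by norm_num) hF
    linarith

lemma LP_symm (ε : ℝ) (k : ℕ) (j : Fin k) : (LP ε k j).IsSymm := by
  unfold LP
  apply Matrix.IsSymm.add
  · split_ifs
    · exact LA_symm _ _ _
    · exact LA_symm _ _ _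
  · exact Matrix.IsSymm.smul (Matrix.isSymm_one) _

lemma LP_posDef {ε : ℝ} (hε : 0 < ε) (k : ℕ) (j : Fin k) : (LP ε k j).PosDef := by
  refine Matrix.PosDef.of_dotProduct_mulVec_pos ?_ ?_
  · rw [Matrix.IsHermitian]
    ext i l
    simp only [Matrix.conjTranspose_apply, star_trivial]
    have h1 := congrFun (congrFun (LP_symm ε k j) i) l
    rwa [Matrix.transpose_apply] at h1
  · intro v hv
    rw [star_trivial]
    exact LP_pos hε k j hv

lemma LP_injective {ε : ℝ} (hε : 0 < ε) (k : ℕ) : Function.Injective (LP ε k) := by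
  intro i j hij
  have h1 := congrFun (congrFun hij (0, 0)) (0, 0)
  have h2 := congrFun (congrFun hij (1, 0)) (0, 1)
  have e1 : ∀ j : Fin k, LP ε k j (0, 0) (0, 0)
      = (if j.val = 1 then 2 else 2 / 3 + (j.val : ℝ)) := by
    intro j
    unfold LP
    split_ifs <;> simp [LA]
  have e2 : ∀ j : Fin k, LP ε k j (1, 0) (0, 1)
      = (if j.val = 1 then -(6 / 13) * ε ^ 2 else 6 / 13 * ε ^ 2) := by
    intro j
    unfold LP
    split_ifs <;> simp [LA]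
  rw [e1, e1] at h1
  rw [e2, e2] at h2
  have hε2 : 0 < ε ^ 2 := by positivity
  apply Fin.ext
  split_ifs at h1 h2 with a b b
  · rw [a, b]
  · exfalso; nlinarith
  · exfalso; nlinarith
  · exact_mod_cast (add_left_cancel h1)

/-- the state of two loads -/
noncomputable def st (ε : ℝ) (F F' : Ent 2 → ℝ) : St :=
  ![F (0, 0) + 8, F (1, 1) + 7, ε * F' (1, 0) - 78 / 5, ε * F' (0, 1) + 52 / 5,
    F' (0, 0), F' (1, 1), ε * F (1, 0), ε * F (0, 1)]

/-- the null Lagrangian of the translation bound -/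
noncomputable def NL (ε : ℝ) (F F' : Ent 2 → ℝ) : ℝ :=
  -2 * (F (0, 0) * (ε * F' (1, 0)) + F (1, 1) * (ε * F' (0, 1)))
  + 2 * (F' (0, 0) * (ε * F (1, 0)) + F' (1, 1) * (ε * F (0, 1)))
  + 2 * (48 / 5 * F (0, 0) - 72 / 5 * F (1, 1))
  + 2 * (84 / 5 * (ε * F' (1, 0)) - 96 / 5 * (ε * F' (0, 1))) - 11544 / 25

lemma energy1 (ε : ℝ) (F F' : Ent 2 → ℝ) :
    linW (LA ε (1 / 2) (-1)) F + linW (LA ε (1 / 2) (-1)) F' = NL ε F F' + W1 (st ε F F') := by
  rw [linW_LA, linW_LA]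
  simp only [NL, W1, st, cons_val, cons_val_zero, cons_val_one]
  ring

lemma energy0 (ε : ℝ) (F F' : Ent 2 → ℝ) :
    linW (LA ε (3 / 2) 1) F + linW (LA ε (3 / 2) 1) F' = NL ε F F' + W0 (st ε F F') := by
  rw [linW_LA, linW_LA]
  simp only [NL, W0, st, cons_val, cons_val_zero, cons_val_one]
  ring

/-- the state jump of a rank-one jump -/
noncomputable def jmp (ε : ℝ) (ξ : Fin 2 → ℝ) (a a' : Fin 2 → ℝ) : St :=
  ![ξ 0 * a 0, ξ 1 * a 1, ε * (ξ 1 * a' 0), ε * (ξ 0 * a' 1),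
    ξ 0 * a' 0, ξ 1 * a' 1, ε * (ξ 1 * a 0), ε * (ξ 0 * a 1)]

lemma jmp_R1 (ε : ℝ) (ξ a a' : Fin 2 → ℝ) : IsR1 (ε ^ 2) (jmp ε ξ a a') := by
  constructor <;> simp only [jmp, cons_val, cons_val_zero, cons_val_one] <;> ring

lemma st_add (ε : ℝ) (F F' : Ent 2 → ℝ) (ξ a a' : Fin 2 → ℝ) (t : ℝ) :
    st ε (F + t • tens ξ a) (F' + t • tens ξ a') = st ε F F' + t • jmp ε ξ a a' := by
  ext i
  fin_cases i <;> simp [st, jmp, tens] <;> ring

lemma NL_line (ε : ℝ) (F F' : Ent 2 → ℝ) (ξ a a' : Fin 2 → ℝ) (θ : ℝ) :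
    NL ε F F' = θ * NL ε (F + (1 - θ) • tens ξ a) (F' + (1 - θ) • tens ξ a')
      + (1 - θ) * NL ε (F - θ • tens ξ a) (F' - θ • tens ξ a') := by
  simp only [NL, tens, Pi.add_apply, Pi.sub_apply, Pi.smul_apply, smul_eq_mul]
  ring

/-- mean loads of the pattern -/
noncomputable def Fb : Ent 2 → ℝ := fun q =>
  if q = (0, 0) then -(35 / 6) else if q = (1, 1) then -(15 / 4) else 0

noncomputable def Fb' (ε : ℝ) : Ent 2 → ℝ := fun q =>
  if q = (1, 0) then 161 / 10 / ε else if q = (0, 1) then -(151 / 15) / ε else 0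

lemma st_b {ε : ℝ} (hε : ε ≠ 0) : st ε Fb (Fb' ε) = xb := by
  ext i
  fin_cases i <;> simp [st, Fb, Fb', xb] <;> field_simp <;> norm_num

/-- the rank-one convex function below the phases -/
theorem lower_fun : ∃ e0 > (0 : ℝ), ∃ g0 > (0 : ℝ), ∀ ε : ℝ, 0 < ε → ε ^ 2 ≤ e0 →
    ∃ G : (Ent 2 → ℝ) → (Ent 2 → ℝ) → ℝ,
    (∀ (F F' : Ent 2 → ℝ) (ξ : Fin 2 → ℝ) (a a' : Fin 2 → ℝ) (θ : ℝ), 0 < θ → θ < 1 →
      G F F' ≤ θ * G (F + (1 - θ) • tens ξ a) (F' + (1 - θ) • tens ξ a')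
        + (1 - θ) * G (F - θ • tens ξ a) (F' - θ • tens ξ a')) ∧
    (∀ (k : ℕ) (j : Fin k) F F', G F F' ≤ linW (LP ε k j) F + linW (LP ε k j) F') ∧
    NL ε Fb (Fb' ε) + g0 ≤ G Fb (Fb' ε) := by
  obtain ⟨e0, he0, g0, hg0, H⟩ := exists_cert
  refine ⟨e0, he0, g0, hg0, fun ε hε hε2 => ?_⟩
  obtain ⟨g, hg1, hg0', hgb, hgR⟩ := H (ε ^ 2) (by positivity) hε2
  refine ⟨fun F F' => NL ε F F' + g (st ε F F'), ?_, ?_, ?_⟩
  · intro F F' ξ a a' θ h0 h1
    have h2 := hgR (st ε F F') (jmp ε ξ a a') θ (jmp_R1 ε ξ a a') h0.le h1.le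
    have h3 := NL_line ε F F' ξ a a' θ
    have h4 : st ε (F - θ • tens ξ a) (F' - θ • tens ξ a') = st ε F F' - θ • jmp ε ξ a a' := by
      have := st_add ε F F' ξ a a' (-θ)
      simpa only [neg_smul, ← sub_eq_add_neg] using this
    simp only
    rw [st_add, h4]
    linarith
  · intro k j F F'
    have h1 : 0 ≤ (if j.val = 1 then 0 else (j.val : ℝ)) * (F ⬝ᵥ F) := by
      apply mul_nonneg _ (dot_nonneg F)
      split_ifs
      · exact le_rfl
      · exact Nat.cast_nonneg _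
    have h2 : 0 ≤ (if j.val = 1 then 0 else (j.val : ℝ)) * (F' ⬝ᵥ F') := by
      apply mul_nonneg _ (dot_nonneg F')
      split_ifs
      · exact le_rfl
      · exact Nat.cast_nonneg _
    simp only
    rw [linW_LP, linW_LP]
    split_ifs at h1 h2 ⊢ with hj
    · have := energy1 ε F F'
      have := hg1 (st ε F F')
      linarith
    · have := energy0 ε F F'
      have := hg0' (st ε F F')
      linarith
  · simp only
    rw [st_b hε.ne']
    linarith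

end Pool.Agent.Lib.MP_2a9317_an.T2
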