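import Mathlib

set_option autoImplicit false

namespace Pool.Agent.Lib.MP_2a9317_an.T2

open MeasureTheory Filter Topology Real
open scoped ContDiff

/-! ### Two-valued waves with nonzero mean and smooth approximations -/

/-- the wave: `1` where `cos 2πx > cos 2πs`, `-1` elsewhere -/
noncomputable def wv (s x : ℝ) : ℝ := if cos (2 * π * s) < cos (2 * π * x) then 1 else -1

lemma wv_eq (s x : ℝ) : wv s x = 1 ∨ wv s x = -1 := by
  unfold wv; split_ifs
  · exact Or.inl rfl
  · exact Or.inr rfl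

lemma abs_wv (s x : ℝ) : |wv s x| = 1 := by
  rcases wv_eq s x with h | h <;> rw [h] <;> norm_num

lemma measurable_wv (s : ℝ) : Measurable (wv s) := by
  apply Measurable.ite
  · exact measurableSet_lt measurable_const (by fun_prop)
  · exact measurable_const
  · exact measurable_const

lemma cos_per1 (x : ℝ) : cos (2 * π * (x + 1)) = cos (2 * π * x) := by
  rw [mul_add, mul_one, cos_add_two_pi]

lemma wv_per (s x : ℝ) : wv s (x + 1) = wv s x := by
  unfold wv; rw [cos_per1]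

lemma cos_refl (x : ℝ) : cos (2 * π * (1 - x)) = cos (2 * π * x) := by
  rw [show 2 * π * (1 - x) = 2 * π - 2 * π * x by ring, cos_two_pi_sub]

lemma cos_lt_iff {s x : ℝ} (hs0 : 0 ≤ s) (hs1 : s ≤ 1 / 2) (hx0 : 0 ≤ x) (hx1 : x ≤ 1 / 2) :
    cos (2 * π * s) < cos (2 * π * x) ↔ x < s := by
  have hpi := pi_pos
  have h1 : 2 * π * s ∈ Set.Icc 0 π := ⟨by positivity, by nlinarith⟩
  have h2 : 2 * π * x ∈ Set.Icc 0 π := ⟨by positivity, by nlinarith⟩
  rw [strictAntiOn_cos.lt_iff_gt h1 h2]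
  constructor
  · intro h; nlinarith
  · intro h; nlinarith

lemma wv_left {s x : ℝ} (hs0 : 0 ≤ s) (hs1 : s ≤ 1 / 2) (hx0 : 0 ≤ x) (hx : x < s) :
    wv s x = 1 := by
  unfold wv
  rw [if_pos ((cos_lt_iff hs0 hs1 hx0 (by linarith)).2 hx)]

lemma wv_right {s x : ℝ} (hs0 : 0 ≤ s) (hs1 : s ≤ 1 / 2) (hx1 : x ≤ 1) (hx : 1 - s < x) :
    wv s x = 1 := by
  unfold wv
  rw [← cos_refl x, if_pos ((cos_lt_iff hs0 hs1 (by linarith) (by linarith)).2 (by linarith))]

lemma wv_mid {s x : ℝ} (hs0 : 0 ≤ s) (hs1 : s ≤ 1 / 2) (hx0 : s ≤ x) (hx1 : x ≤ 1 - s) :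
    wv s x = -1 := by
  unfold wv
  rw [if_neg]
  rcases le_total x (1 / 2) with h | h
  · rw [cos_lt_iff hs0 hs1 (by linarith) h]
    exact not_lt.2 hx0
  · rw [← cos_refl x, cos_lt_iff hs0 hs1 (by linarith) (by linarith)]
    exact not_lt.2 (by linarith)

lemma cos_ne {s x : ℝ} (hs0 : 0 ≤ s) (hs1 : s ≤ 1 / 2) (hx : x ∈ Set.Icc (0 : ℝ) 1)
    (h1 : x ≠ s) (h2 : x ≠ 1 - s) : cos (2 * π * x) - cos (2 * π * s) ≠ 0 := by
  intro h
  have h0 : cos (2 * π * x) = cos (2 * π * s) := by linarith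
  have hpi := pi_pos
  have key : ∀ y : ℝ, 0 ≤ y → y ≤ 1 / 2 → cos (2 * π * y) = cos (2 * π * s) → y = s := by
    intro y hy0 hy1 hy
    have m1 : 2 * π * s ∈ Set.Icc 0 π := ⟨by positivity, by nlinarith⟩
    have m2 : 2 * π * y ∈ Set.Icc 0 π := ⟨by positivity, by nlinarith⟩
    have := injOn_cos m2 m1 hy
    have h3 : (2 * π) * y = (2 * π) * s := this
    exact mul_left_cancel₀ (by positivity) h3
  rcases le_total x (1 / 2) with h | h
  · exact h1 (key x hx.1 h h0)
  · rw [← cos_refl x] at h0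
    have := key (1 - x) (by linarith [hx.2]) (by linarith) h0
    exact h2 (by linarith)

lemma ae_cos_ne {s : ℝ} (hs0 : 0 ≤ s) (hs1 : s ≤ 1 / 2) :
    ∀ᵐ x : ℝ ∂(volume.restrict (Set.Icc (0 : ℝ) 1)), cos (2 * π * x) - cos (2 * π * s) ≠ 0 := by
  rw [ae_restrict_iff' measurableSet_Icc]
  have hc : ({s, 1 - s} : Set ℝ).Countable := by simp
  filter_upwards [hc.ae_notMem volume] with x hx hI
  simp only [Set.mem_insert_iff, Set.mem_singleton_iff, not_or] at hx
  exact cos_ne hs0 hs1 hI hx.1 hx.2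

lemma int_wv {s : ℝ} (hs0 : 0 ≤ s) (hs1 : s ≤ 1 / 2) :
    ∫ x in Set.Icc (0 : ℝ) 1, wv s x = 4 * s - 1 := by
  rw [integral_Icc_eq_integral_Ioc, ← intervalIntegral.integral_of_le zero_le_one]
  have hint : ∀ a b : ℝ, IntervalIntegrable (wv s) volume a b := by
    intro a b
    rw [intervalIntegrable_iff]
    apply Measure.integrableOn_of_bounded (M := 1)
    · simp [Set.uIoc]
    · exact (measurable_wv s).aestronglyMeasurable
    · exact Eventually.of_forall fun x => by rw [Real.norm_eq_abs, abs_wv]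
  rw [← intervalIntegral.integral_add_adjacent_intervals (hint 0 s) (hint s 1),
    ← intervalIntegral.integral_add_adjacent_intervals (hint s (1 - s)) (hint (1 - s) 1)]
  have h1 : ∫ x in (0 : ℝ)..s, wv s x = s := by
    have : ∫ x in (0 : ℝ)..s, wv s x = ∫ x in (0 : ℝ)..s, (1 : ℝ) := by
      apply intervalIntegral.integral_congr_ae
      have hc : ({s} : Set ℝ).Countable := Set.countable_singleton _
      filter_upwards [hc.ae_notMem volume] with x hx hI
      rw [Set.uIoc_of_le hs0] at hI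
      exact wv_left hs0 hs1 hI.1.le (lt_of_le_of_ne hI.2 hx)
    rw [this]; simp
  have h2 : ∫ x in s..(1 - s), wv s x = -(1 - 2 * s) := by
    have : ∫ x in s..(1 - s), wv s x = ∫ x in s..(1 - s), (-1 : ℝ) := by
      apply intervalIntegral.integral_congr
      intro x hx
      rw [Set.uIcc_of_le (by linarith)] at hx
      exact wv_mid hs0 hs1 hx.1 hx.2
    rw [this]; simp; ring
  have h3 : ∫ x in (1 - s)..1, wv s x = s := by
    have : ∫ x in (1 - s)..1, wv s x = ∫ x in (1 - s)..1, (1 : ℝ) := by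
      apply intervalIntegral.integral_congr_ae
      filter_upwards with x hI
      rw [Set.uIoc_of_le (by linarith)] at hI
      exact wv_right hs0 hs1 hI.2 hI.1
    rw [this]; simp
  rw [h1, h2, h3]; ring

/-- smooth approximate wave -/
noncomputable def sw (s c x : ℝ) : ℝ :=
  (cos (2 * π * x) - cos (2 * π * s)) / √((cos (2 * π * x) - cos (2 * π * s)) ^ 2 + c ^ 2)

lemma sw_per (s c x : ℝ) : sw s c (x + 1) = sw s c x := by unfold sw; rw [cos_per1]

section
variable {c : ℝ} (hc : 0 < c) (s : ℝ)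
include hc

lemma sw_rad_pos (x : ℝ) : 0 < (cos (2 * π * x) - cos (2 * π * s)) ^ 2 + c ^ 2 := by positivity

lemma sw_contDiff : ContDiff ℝ ∞ (sw s c) := by
  unfold sw
  apply ContDiff.div
  · fun_prop
  · apply ContDiff.sqrt
    · fun_prop
    · intro x; exact (sw_rad_pos hc s x).ne'
  · intro x
    exact (sqrt_pos.2 (sw_rad_pos hc s x)).ne'

lemma sw_abs_le (x : ℝ) : |sw s c x| ≤ 1 := by
  unfold sw
  have hr := sqrt_pos.2 (sw_rad_pos hc s x)
  rw [abs_div, abs_of_pos hr, div_le_one hr]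
  apply abs_le_sqrt
  nlinarith [sq_nonneg c]

end

lemma exists_sw_close {s : ℝ} (hs0 : 0 ≤ s) (hs1 : s ≤ 1 / 2) (η : ℝ) (hη : 0 < η) :
    ∃ c : ℝ, 0 < c ∧ ∫ x in Set.Icc (0 : ℝ) 1, (sw s c x - wv s x) ^ 2 < η := by
  let cs : ℕ → ℝ := fun n => 1 / ((n : ℝ) + 1)
  have hcs0 : ∀ n, 0 < cs n := fun n => by
    show 0 < 1 / ((n : ℝ) + 1)
    positivity
  have hcs : Tendsto cs atTop (𝓝 0) := tendsto_one_div_add_atTop_nhds_zero_nat
  have hlim : Tendsto (fun n => ∫ x in Set.Icc (0 : ℝ) 1, (sw s (cs n) x - wv s x) ^ 2) atTop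
      (𝓝 (∫ x in Set.Icc (0 : ℝ) 1, (0 : ℝ))) := by
    apply tendsto_integral_of_dominated_convergence (fun _ => (4 : ℝ))
    · intro n
      exact (((sw_contDiff (hcs0 n) s).continuous.measurable.sub (measurable_wv s)).pow_const
        2).aestronglyMeasurable
    · exact integrable_const _
    · intro n
      refine Eventually.of_forall fun x => ?_
      have h1 := sw_abs_le (hcs0 n) s x
      have h2 := abs_wv s x
      rw [norm_pow, Real.norm_eq_abs]
      have h3 : |sw s (cs n) x - wv s x| ≤ 2 := by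
        calc |sw s (cs n) x - wv s x| ≤ |sw s (cs n) x| + |wv s x| := abs_sub _ _
          _ ≤ 2 := by linarith
      have h4 := abs_nonneg (sw s (cs n) x - wv s x)
      nlinarith
    · filter_upwards [ae_cos_ne hs0 hs1] with x hx
      have hcont : ContinuousAt (fun c : ℝ => (sw s c x - wv s x) ^ 2) 0 := by
        unfold sw
        have hne : √((cos (2 * π * x) - cos (2 * π * s)) ^ 2 + 0 ^ 2) ≠ 0 := by
          rw [zero_pow (by norm_num), add_zero, sqrt_sq_eq_abs]
          exact abs_ne_zero.2 hx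
        have hc2 : ContinuousAt
            (fun c : ℝ => √((cos (2 * π * x) - cos (2 * π * s)) ^ 2 + c ^ 2)) 0 := by fun_prop
        exact ((continuousAt_const.div hc2 hne).sub continuousAt_const).pow 2
      have h1 := hcont.tendsto.comp hcs
      have hz : (sw s 0 x - wv s x) ^ 2 = 0 := by
        have : sw s 0 x = wv s x := by
          unfold sw wv
          rw [zero_pow (by norm_num), add_zero, sqrt_sq_eq_abs]
          split_ifs with hs
          · rw [abs_of_pos (by linarith), div_self hx]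
          · push Not at hs
            rw [abs_of_nonpos (by linarith), div_neg, div_self hx]
        rw [this, sub_self]; norm_num
      rw [hz] at h1
      exact h1
  rw [integral_zero] at hlim
  obtain ⟨n, hn⟩ := ((tendsto_order.1 hlim).2 η hη).exists
  exact ⟨cs n, hcs0 n, hn⟩

lemma intOn_cont {f : ℝ → ℝ} (hf : Continuous f) : IntegrableOn f (Set.Icc (0 : ℝ) 1) :=
  hf.continuousOn.integrableOn_compact isCompact_Icc

lemma intOn_bdd {f : ℝ → ℝ} (hf : Measurable f) {C : ℝ} (hC : ∀ x, |f x| ≤ C) :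
    IntegrableOn f (Set.Icc (0 : ℝ) 1) := by
  apply Measure.integrableOn_of_bounded (M := C)
  · simp
  · exact hf.aestronglyMeasurable
  · exact Eventually.of_forall fun x => by rw [Real.norm_eq_abs]; exact hC x

lemma int_var {D : ℝ → ℝ} (h1 : IntegrableOn D (Set.Icc (0 : ℝ) 1))
    (h2 : IntegrableOn (fun x => D x ^ 2) (Set.Icc (0 : ℝ) 1)) {m : ℝ}
    (hm : m = ∫ x in Set.Icc (0 : ℝ) 1, D x) :
    ∫ x in Set.Icc (0 : ℝ) 1, (D x - m) ^ 2 = (∫ x in Set.Icc (0 : ℝ) 1, D x ^ 2) - m ^ 2 := by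
  have e : ∀ x, (D x - m) ^ 2 = D x ^ 2 - (2 * m * D x - m ^ 2) := fun x => by ring
  have i1 : IntegrableOn (fun x => 2 * m * D x) (Set.Icc (0 : ℝ) 1) := h1.const_mul _
  have i2 : IntegrableOn (fun _ => m ^ 2) (Set.Icc (0 : ℝ) 1) := integrable_const _
  have i3 : IntegrableOn (fun x => 2 * m * D x - m ^ 2) (Set.Icc (0 : ℝ) 1) := i1.sub i2
  calc ∫ x in Set.Icc (0 : ℝ) 1, (D x - m) ^ 2
      = ∫ x in Set.Icc (0 : ℝ) 1, (D x ^ 2 - (2 * m * D x - m ^ 2)) := by simp only [e]
    _ = (∫ x in Set.Icc (0 : ℝ) 1, D x ^ 2)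
        - ∫ x in Set.Icc (0 : ℝ) 1, (2 * m * D x - m ^ 2) := integral_sub h2 i3
    _ = (∫ x in Set.Icc (0 : ℝ) 1, D x ^ 2)
        - ((∫ x in Set.Icc (0 : ℝ) 1, 2 * m * D x) - ∫ x in Set.Icc (0 : ℝ) 1, m ^ 2) := by
          rw [integral_sub i1 i2]
    _ = _ := by
          rw [integral_const_mul, ← hm]
          simp
          ring

/-- smooth approximate wave with the exact mean -/
theorem exists_wave {s : ℝ} (hs0 : 0 ≤ s) (hs1 : s ≤ 1 / 2) (η : ℝ) (hη : 0 < η) :
    ∃ α : ℝ → ℝ, ContDiff ℝ ∞ α ∧ (∀ x, α (x + 1) = α x) ∧ (∀ x, |α x| ≤ 3) ∧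
      ∫ x in Set.Icc (0 : ℝ) 1, α x = 4 * s - 1 ∧
      ∫ x in Set.Icc (0 : ℝ) 1, (α x - wv s x) ^ 2 < η := by
  obtain ⟨c, hc, hclose⟩ := exists_sw_close hs0 hs1 (η / 4) (by positivity)
  have hcd := sw_contDiff hc s
  set m := ∫ x in Set.Icc (0 : ℝ) 1, (sw s c x - wv s x) with hm
  have hb : ∀ x, |sw s c x - wv s x| ≤ 2 := by
    intro x
    calc |sw s c x - wv s x| ≤ |sw s c x| + |wv s x| := abs_sub _ _
      _ ≤ 1 + 1 := add_le_add (sw_abs_le hc s x) (abs_wv s x).le
      _ = 2 := by norm_num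
  have hmeas : Measurable (fun x => sw s c x - wv s x) :=
    hcd.continuous.measurable.sub (measurable_wv s)
  have hI1 : IntegrableOn (fun x => sw s c x - wv s x) (Set.Icc (0 : ℝ) 1) := intOn_bdd hmeas hb
  have hI2 : IntegrableOn (fun x => (sw s c x - wv s x) ^ 2) (Set.Icc (0 : ℝ) 1) := by
    apply intOn_bdd (hmeas.pow_const 2) (C := 4)
    intro x
    rw [abs_pow]
    nlinarith [hb x, abs_nonneg (sw s c x - wv s x)]
  have hm2 : m ^ 2 ≤ ∫ x in Set.Icc (0 : ℝ) 1, (sw s c x - wv s x) ^ 2 := by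
    have h1 : 0 ≤ ∫ x in Set.Icc (0 : ℝ) 1, (sw s c x - wv s x - m) ^ 2 :=
      integral_nonneg fun x => sq_nonneg _
    have h2 := int_var hI1 hI2 hm
    linarith
  have hmabs : |m| ≤ 2 := by
    have : m ^ 2 ≤ 4 := by
      refine hm2.trans ?_
      calc _ ≤ ∫ x in Set.Icc (0 : ℝ) 1, (4 : ℝ) := by
            apply setIntegral_mono hI2 (integrable_const _)
            intro x
            have h := hb x
            show (sw s c x - wv s x) ^ 2 ≤ 4
            rw [← sq_abs]
            nlinarith [abs_nonneg (sw s c x - wv s x)]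
        _ = 4 := by simp
    rw [← sq_abs] at this
    nlinarith [abs_nonneg m]
  refine ⟨fun x => sw s c x - m, hcd.sub contDiff_const, fun x => by
    show sw s c (x + 1) - m = sw s c x - m
    rw [sw_per], ?_, ?_, ?_⟩
  · intro x
    calc |sw s c x - m| ≤ |sw s c x| + |m| := abs_sub _ _
      _ ≤ 1 + 2 := add_le_add (sw_abs_le hc s x) hmabs
      _ = 3 := by norm_num
  · have h1 : m = (∫ x in Set.Icc (0 : ℝ) 1, sw s c x) - (4 * s - 1) := by
      rw [hm, integral_sub (intOn_cont hcd.continuous)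
        (intOn_bdd (measurable_wv s) (fun x => (abs_wv s x).le)), int_wv hs0 hs1]
    rw [integral_sub (intOn_cont hcd.continuous) (integrable_const _)]
    simp
    linarith
  · have e : ∀ x, (sw s c x - m - wv s x) ^ 2 = (sw s c x - wv s x - m) ^ 2 := fun x => by ring
    simp only [e]
    rw [int_var hI1 hI2 hm]
    nlinarith [sq_nonneg m]

/-- smooth periodic primitives -/
theorem exists_primitive {α : ℝ → ℝ} (hα : ContDiff ℝ ∞ α) (hper : ∀ x, α (x + 1) = α x)
    {P : ℝ} (hP : ∫ x in Set.Icc (0 : ℝ) 1, α x = P) :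
    ∃ θ : ℝ → ℝ, ContDiff ℝ ∞ θ ∧ (∀ x, θ (x + 1) = θ x) ∧ ∀ x, HasDerivAt θ (α x - P) x := by
  set f : ℝ → ℝ := fun x => α x - P with hf
  have hfc : Continuous f := hα.continuous.sub continuous_const
  have hder : ∀ x, HasDerivAt (fun x => ∫ t in (0 : ℝ)..x, f t) (f x) x := fun x =>
    intervalIntegral.integral_hasDerivAt_right (hfc.intervalIntegrable _ _)
      hfc.aestronglyMeasurable.stronglyMeasurableAtFilter hfc.continuousAt
  refine ⟨fun x => ∫ t in (0 : ℝ)..x, f t, ?_, ?_, hder⟩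
  · rw [contDiff_infty_iff_deriv]
    refine ⟨fun x => (hder x).differentiableAt, ?_⟩
    have : deriv (fun x => ∫ t in (0 : ℝ)..x, f t) = f := by
      ext x; exact (hder x).deriv
    rw [this]
    exact hα.sub contDiff_const
  · intro x
    have hfper : Function.Periodic f 1 := fun y => by simp only [hf, hper]
    have h1 : ∫ t in (0 : ℝ)..(x + 1), f t
        = (∫ t in (0 : ℝ)..x, f t) + ∫ t in x..(x + 1), f t :=
      (intervalIntegral.integral_add_adjacent_intervals (hfc.intervalIntegrable _ _)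
        (hfc.intervalIntegrable _ _)).symm
    have h2 : ∫ t in x..(x + 1), f t = ∫ t in (0 : ℝ)..(0 + 1), f t :=
      hfper.intervalIntegral_add_eq x 0
    have h3 : ∫ t in (0 : ℝ)..(0 + 1), f t = 0 := by
      rw [zero_add, intervalIntegral.integral_of_le zero_le_one, ← integral_Icc_eq_integral_Ioc]
      simp only [hf]
      rw [integral_sub (intOn_cont hα.continuous) (integrable_const _), hP]
      simp
    show ∫ t in (0 : ℝ)..(x + 1), f t = ∫ t in (0 : ℝ)..x, f t
    rw [h1, h2, h3, add_zero]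

end Pool.Agent.Lib.MP_2a9317_an.T2
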