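import Pool.Agent.Lib.MP_2a9317_an.Pattern
import Pool.Agent.Lib.MP_2a9317_an.T2.Lam
import Pool.Agent.Lib.MP_2a9317_an.T2.Wv

set_option autoImplicit false

namespace Pool.Agent.Lib.MP_2a9317_an.T2

open MeasureTheory Matrix Real
open scoped ContDiff

/-! ### Potentials of product form -/

/-- a potential with components `f(x) g(y)` -/
def pp (f0 g0 f1 g1 : ℝ → ℝ) : ℝ × ℝ → Fin 2 → ℝ := fun p =>
  ![f0 p.1 * g0 p.2, f1 p.1 * g1 p.2]

lemma pp_potential {f0 g0 f1 g1 : ℝ → ℝ} (h1 : ContDiff ℝ ∞ f0) (h2 : ContDiff ℝ ∞ g0)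
    (h3 : ContDiff ℝ ∞ f1) (h4 : ContDiff ℝ ∞ g1) (p1 : ∀ x, f0 (x + 1) = f0 x)
    (p2 : ∀ x, g0 (x + 1) = g0 x) (p3 : ∀ x, f1 (x + 1) = f1 x) (p4 : ∀ x, g1 (x + 1) = g1 x) :
    IsPotential (pp f0 g0 f1 g1) := by
  refine ⟨?_, fun x y => ⟨?_, ?_⟩⟩
  · rw [contDiff_pi]
    intro i
    fin_cases i
    · exact (h1.comp contDiff_fst).mul (h2.comp contDiff_snd)
    · exact (h3.comp contDiff_fst).mul (h4.comp contDiff_snd)
  · simp only [pp, p1, p3]
  · simp only [pp, p2, p4]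

lemma comp_deriv {f g f' g' : ℝ → ℝ} (hf : ∀ x, HasDerivAt f (f' x) x)
    (hg : ∀ x, HasDerivAt g (g' x) x) (p : ℝ × ℝ) :
    HasFDerivAt (fun p : ℝ × ℝ => f p.1 * g p.2)
      (f p.1 • (g' p.2 • ContinuousLinearMap.snd ℝ ℝ ℝ)
        + g p.2 • (f' p.1 • ContinuousLinearMap.fst ℝ ℝ ℝ)) p := by
  have h1 : HasFDerivAt (fun p : ℝ × ℝ => f p.1) (f' p.1 • ContinuousLinearMap.fst ℝ ℝ ℝ) p :=
    (hf p.1).comp_hasFDerivAt p hasFDerivAt_fst
  have h2 : HasFDerivAt (fun p : ℝ × ℝ => g p.2) (g' p.2 • ContinuousLinearMap.snd ℝ ℝ ℝ) p :=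
    (hg p.2).comp_hasFDerivAt p hasFDerivAt_snd
  exact h1.mul h2

lemma pp_grad {f0 g0 f1 g1 f0' g0' f1' g1' : ℝ → ℝ} (h1 : ∀ x, HasDerivAt f0 (f0' x) x)
    (h2 : ∀ x, HasDerivAt g0 (g0' x) x) (h3 : ∀ x, HasDerivAt f1 (f1' x) x)
    (h4 : ∀ x, HasDerivAt g1 (g1' x) x) (p : ℝ × ℝ) :
    grad (pp f0 g0 f1 g1) p (0, 0) = f0' p.1 * g0 p.2 ∧
    grad (pp f0 g0 f1 g1) p (1, 0) = f0 p.1 * g0' p.2 ∧
    grad (pp f0 g0 f1 g1) p (0, 1) = f1' p.1 * g1 p.2 ∧
    grad (pp f0 g0 f1 g1) p (1, 1) = f1 p.1 * g1' p.2 := by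
  have hd : HasFDerivAt (pp f0 g0 f1 g1) (ContinuousLinearMap.pi ![
      (f0 p.1 • (g0' p.2 • ContinuousLinearMap.snd ℝ ℝ ℝ)
        + g0 p.2 • (f0' p.1 • ContinuousLinearMap.fst ℝ ℝ ℝ)),
      (f1 p.1 • (g1' p.2 • ContinuousLinearMap.snd ℝ ℝ ℝ)
        + g1 p.2 • (f1' p.1 • ContinuousLinearMap.fst ℝ ℝ ℝ))]) p := by
    rw [hasFDerivAt_pi']
    intro i
    fin_cases i
    · exact comp_deriv h1 h2 p
    · exact comp_deriv h3 h4 p
  simp only [grad, hd.fderiv]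
  refine ⟨?_, ?_, ?_, ?_⟩ <;> simp [dir, mul_comm]

/-! ### The pattern -/

/-- the partition: phase `1` where the two waves agree, phase `0` elsewhere -/
noncomputable def ch (k : ℕ) (hk : 2 ≤ k) (p : ℝ × ℝ) : Fin k :=
  if wv (1 / 3) p.1 = wv (3 / 8) p.2 then ⟨1, by omega⟩ else ⟨0, by omega⟩

lemma ch_partition (k : ℕ) (hk : 2 ≤ k) : IsPartition (ch k hk) := by
  refine ⟨?_, fun x y => ⟨?_, ?_⟩⟩
  · apply Measurable.ite
    · exact measurableSet_eq_fun ((measurable_wv _).comp measurable_fst)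
        ((measurable_wv _).comp measurable_snd)
    · exact measurable_const
    · exact measurable_const
  · simp only [ch, wv_per]
  · simp only [ch, wv_per]

lemma three_sq (p q r : ℝ) : (p + q + r) ^ 2 ≤ 3 * (p ^ 2 + q ^ 2 + r ^ 2) := by
  nlinarith [sq_nonneg (p - q), sq_nonneg (q - r), sq_nonneg (p - r)]

/-- pointwise bound of the excess energy at the test fields -/
lemma prod_dev {a b A B τ : ℝ} (ha : |a| ≤ 3) (hA : A = 1 ∨ A = -1) (hτ : τ = 1 ∨ τ = -1)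
    (hB : B = τ * A) :
    (a - τ * b) ^ 2 ≤ 2 * ((a - A) ^ 2 + (b - B) ^ 2) ∧
    (a * b - τ) ^ 2 ≤ 18 * ((a - A) ^ 2 + (b - B) ^ 2) := by
  have hA2 : A ^ 2 = 1 := by rcases hA with h | h <;> rw [h] <;> norm_num
  have hτ2 : τ ^ 2 = 1 := by rcases hτ with h | h <;> rw [h] <;> norm_num
  have ha2 : a ^ 2 ≤ 9 := by
    rw [← sq_abs]; nlinarith [abs_nonneg a]
  constructor
  · have e : a - τ * b = (a - A) - τ * (b - B) := by
      rw [hB]; linear_combination (-A) * hτ2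
    rw [e]
    have h1 : ((a - A) - τ * (b - B)) ^ 2 = (a - A) ^ 2 - 2 * τ * (a - A) * (b - B)
        + (b - B) ^ 2 := by linear_combination ((b - B) ^ 2) * hτ2
    rw [h1]
    rcases hτ with h | h <;> rw [h] <;>
      nlinarith [sq_nonneg ((a - A) + (b - B)), sq_nonneg ((a - A) - (b - B))]
  · have e : a * b - τ = a * (b - B) + B * (a - A) := by
      rw [hB]; linear_combination τ * hA2
    rw [e]
    have hB2 : B ^ 2 = 1 := by rw [hB, mul_pow, hτ2, hA2]; norm_num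
    have h1 : (a * (b - B) + B * (a - A)) ^ 2 ≤ 2 * (a ^ 2 * (b - B) ^ 2 + B ^ 2 * (a - A) ^ 2) := by
      nlinarith [sq_nonneg (a * (b - B) - B * (a - A))]
    rw [hB2] at h1
    have h2 : a ^ 2 * (b - B) ^ 2 ≤ 9 * (b - B) ^ 2 :=
      mul_le_mul_of_nonneg_right ha2 (sq_nonneg _)
    nlinarith [sq_nonneg (a - A), sq_nonneg (b - B)]

lemma W1_pat {a b A B x6 x7 : ℝ} (ha : |a| ≤ 3) (hA : A = 1 ∨ A = -1) (hAB : A = B) :
    W1 ![13 / 6 + (a - 1 / 3) * (1 / 2 + 3 * b), 13 / 4 + (b - 1 / 2) * (1 / 2 + 2 * a), b, a,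
      0, 0, x6, x7] ≤ 2000 * ((a - A) ^ 2 + (b - B) ^ 2) + 3 * (x6 ^ 2 + x7 ^ 2) := by
  obtain ⟨h1, h2⟩ := prod_dev (b := b) (B := B) (τ := 1) ha hA (Or.inl rfl) (by rw [one_mul, hAB])
  rw [one_mul] at h1
  simp only [W1, cons_val, cons_val_zero, cons_val_one]
  have e1 : 13 / 6 + (a - 1 / 3) * (1 / 2 + 3 * b) + b / 2 - 5 = (a - b) / 2 + 3 * (a * b - 1) := by
    ring
  have e2 : 13 / 4 + (b - 1 / 2) * (1 / 2 + 2 * a) + a / 2 - 5
      = -((a - b) / 2) + 2 * (a * b - 1) := by ring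
  rw [e1, e2]
  nlinarith [sq_nonneg ((a - b) / 2 - 3 * (a * b - 1)), sq_nonneg (-((a - b) / 2) - 2 * (a * b - 1)),
    sq_nonneg (x6 + x7), sq_nonneg x6, sq_nonneg x7, sq_nonneg (a - b), sq_nonneg (a * b - 1)]

lemma W0_pat {a b A B x6 x7 : ℝ} (ha : |a| ≤ 3) (hA : A = 1 ∨ A = -1) (hAB : A = -B) :
    W0 ![13 / 6 + (a - 1 / 3) * (1 / 2 + 3 * b), 13 / 4 + (b - 1 / 2) * (1 / 2 + 2 * a), b, a,
      0, 0, x6, x7] ≤ 2000 * ((a - A) ^ 2 + (b - B) ^ 2) + 3 * (x6 ^ 2 + x7 ^ 2) := by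
  obtain ⟨h1, h2⟩ := prod_dev (b := b) (B := B) (τ := -1) ha hA (Or.inr rfl) (by rw [hAB]; ring)
  simp only [W0, cons_val, cons_val_zero, cons_val_one]
  have e0 : a - -1 * b = a + b := by ring
  have e0' : a * b - -1 = a * b + 1 := by ring
  rw [e0] at h1
  rw [e0'] at h2
  have e1 : 13 / 6 + (a - 1 / 3) * (1 / 2 + 3 * b) + 3 / 2 * b + 1
      = (a + b) / 2 + 3 * (a * b + 1) := by ring
  have e2 : 13 / 4 + (b - 1 / 2) * (1 / 2 + 2 * a) + 3 / 2 * a - 1
      = (a + b) / 2 + 2 * (a * b + 1) := by ring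
  rw [e1, e2]
  nlinarith [sq_nonneg ((a + b) / 2 - 3 * (a * b + 1)), sq_nonneg ((a + b) / 2 - 2 * (a * b + 1)),
    sq_nonneg (x6 - x7), sq_nonneg x6, sq_nonneg x7, sq_nonneg (a + b), sq_nonneg (a * b + 1)]

/-- the quadratic polynomials in the average of the null Lagrangian -/
noncomputable def G1 (b : ℝ) : ℝ :=
  -2 * (1 / 2 + 3 * b) * (b + 78 / 5) + 15 / 2 + 96 / 5 * (1 / 2 + 3 * b) - 192 / 5
noncomputable def G2 (a : ℝ) : ℝ :=
  35 / 3 - 2 * (1 / 2 + 2 * a) * (a - 52 / 5) - 144 / 5 * (1 / 2 + 2 * a) + 168 / 5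

lemma NL_pat {ε : ℝ} (hε : ε ≠ 0) (F F' : Ent 2 → ℝ) (a b : ℝ)
    (h1 : F (0, 0) = -(35 / 6) + (a - 1 / 3) * (1 / 2 + 3 * b))
    (h2 : F (1, 1) = -(15 / 4) + (b - 1 / 2) * (1 / 2 + 2 * a))
    (h3 : ε * F' (1, 0) = b + 78 / 5) (h4 : ε * F' (0, 1) = a - 52 / 5)
    (h5 : F' (0, 0) = 0) (h6 : F' (1, 1) = 0) :
    NL ε F F' = NL ε Fb (Fb' ε) + ((a - 1 / 3) * G1 b + G2 a * (b - 1 / 2)) := by
  have e1 : Fb (0, 0) = -(35 / 6) := by simp [Fb]
  have e2 : Fb (1, 1) = -(15 / 4) := by simp [Fb]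
  have e3 : ε * Fb' ε (1, 0) = 161 / 10 := by simp [Fb']; field_simp
  have e4 : ε * Fb' ε (0, 1) = -(151 / 15) := by simp [Fb']; field_simp
  have e5 : Fb' ε (0, 0) = 0 := by simp [Fb']
  have e6 : Fb' ε (1, 1) = 0 := by simp [Fb']
  simp only [NL, h1, h2, h3, h4, h5, h6, e1, e2, e3, e4, e5, e6, G1, G2]
  ring

lemma linStar_le' {k : ℕ} (K : Fin k → Matrix (Ent 2) (Ent 2) ℝ)
    (hK : ∀ j, (K j).PosDef) (χ : ℝ × ℝ → Fin k) (F : Ent 2 → ℝ) {u : ℝ × ℝ → Fin 2 → ℝ}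
    (hu : IsPotential u) : linStar K χ F ≤ avg fun p => linW (K (χ p)) (F + grad u p) :=
  linStar_le K hK χ F hu

/-- **upper bound**: the energy of the pattern -/
theorem upper {δ : ℝ} (hδ : 0 < δ) : ∃ K : ℝ, 0 ≤ K ∧ ∀ ε : ℝ, 0 < ε → ∀ (k : ℕ) (hk : 2 ≤ k),
    linStar (LP ε k) (ch k hk) Fb + linStar (LP ε k) (ch k hk) (Fb' ε)
      ≤ NL ε Fb (Fb' ε) + δ + ε ^ 2 * K := by
  obtain ⟨α, αs, αp, αb, αm, αc⟩ := exists_wave (s := 1 / 3) (by norm_num) (by norm_num)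
    (δ / 4000) (by positivity)
  obtain ⟨β, βs, βp, βb, βm, βc⟩ := exists_wave (s := 3 / 8) (by norm_num) (by norm_num)
    (δ / 4000) (by positivity)
  have αm' : ∫ x in Set.Icc (0 : ℝ) 1, α x = 1 / 3 := by rw [αm]; norm_num
  have βm' : ∫ x in Set.Icc (0 : ℝ) 1, β x = 1 / 2 := by rw [βm]; norm_num
  obtain ⟨tα, tαs, tαp, tαd⟩ := exists_primitive αs αp αm'
  obtain ⟨tβ, tβs, tβp, tβd⟩ := exists_primitive βs βp βm'
  -- derivatives
  have αd : ∀ x, HasDerivAt α (deriv α x) x := fun x =>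
    ((αs.differentiable (by simp)).differentiableAt).hasDerivAt
  have βd : ∀ x, HasDerivAt β (deriv β x) x := fun x =>
    ((βs.differentiable (by simp)).differentiableAt).hasDerivAt
  have cdα : Continuous (deriv α) := αs.continuous_deriv (by simp)
  have cdβ : Continuous (deriv β) := βs.continuous_deriv (by simp)
  -- the error density
  let E : ℝ × ℝ → ℝ := fun p => 3 * ((tα p.1 * (3 * deriv β p.2)) ^ 2
    + ((2 * deriv α p.1) * tβ p.2) ^ 2)
  have hEc : Continuous E := by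
    have := tαs.continuous
    have := tβs.continuous
    fun_prop
  have hE0 : ∀ p, 0 ≤ E p := fun p => by positivity
  refine ⟨avg E, avg_nonneg hE0, fun ε hε k hk => ?_⟩
  -- potentials
  set u := pp tα (fun y => 1 / 2 + 3 * β y) (fun x => 1 / 2 + 2 * α x) tβ with hu
  set u' := pp (fun _ => 1) (fun y => tβ y / ε) (fun x => tα x / ε) (fun _ => 1) with hu'
  have hup : IsPotential u := pp_potential tαs (contDiff_const.add (contDiff_const.mul βs))
    (contDiff_const.add (contDiff_const.mul αs)) tβs tαp (fun y => by simp only [βp])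
    (fun x => by simp only [αp]) tβp
  have hup' : IsPotential u' := pp_potential contDiff_const (tβs.div_const ε) (tαs.div_const ε)
    contDiff_const (fun _ => rfl) (fun y => by simp only [tβp]) (fun x => by simp only [tαp])
    (fun _ => rfl)
  have gu := pp_grad tαd (fun y => ((βd y).const_mul 3).const_add (1 / 2))
    (fun x => ((αd x).const_mul 2).const_add (1 / 2)) tβd
  have gu' := pp_grad (fun x => hasDerivAt_const x (1 : ℝ)) (fun y => (tβd y).div_const ε)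
    (fun x => (tαd x).div_const ε) (fun y => hasDerivAt_const y (1 : ℝ))
  rw [← hu] at gu
  rw [← hu'] at gu'
  have hχ := ch_partition k hk
  have hPD := LP_posDef hε k
  have b1 := linStar_le (LP ε k) hPD (ch k hk) Fb hup
  have b2 := linStar_le (LP ε k) hPD (ch k hk) (Fb' ε) hup'
  have i1 := integrable_linW (LP ε k) hχ Fb hup
  have i2 := integrable_linW (LP ε k) hχ (Fb' ε) hup'
  refine (add_le_add b1 b2).trans ?_
  rw [← avg_add i1 i2]
  -- integrability and averages of the pieces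
  have gα : Good (fun x => α x - 1 / 3) := ⟨(αs.continuous.sub continuous_const).measurable, 4,
    fun x => by
      have := αb x
      rw [abs_le] at this ⊢
      constructor <;> linarith [this.1, this.2]⟩
  have gβ : Good (fun y => β y - 1 / 2) := ⟨(βs.continuous.sub continuous_const).measurable, 4,
    fun x => by
      have := βb x
      rw [abs_le] at this ⊢
      constructor <;> linarith [this.1, this.2]⟩
  have bG : ∀ (g : ℝ → ℝ), Continuous g → ∃ C, ∀ t : ℝ, |t| ≤ 3 → |g t| ≤ C := by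
    intro g hg
    obtain ⟨C, hC⟩ := (isCompact_Icc (a := (-3 : ℝ)) (b := 3)).exists_bound_of_continuousOn
      hg.continuousOn
    exact ⟨C, fun t ht => hC t (abs_le.1 ht)⟩
  have cG1 : Continuous G1 := by unfold G1; fun_prop
  have cG2 : Continuous G2 := by unfold G2; fun_prop
  obtain ⟨C1, hC1⟩ := bG G1 cG1
  obtain ⟨C2, hC2⟩ := bG G2 cG2
  have gG1 : Good (fun y => G1 (β y)) := ⟨(cG1.comp βs.continuous).measurable, C1,
    fun y => hC1 _ (βb y)⟩
  have gG2 : Good (fun x => G2 (α x)) := ⟨(cG2.comp αs.continuous).measurable, C2,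
    fun x => hC2 _ (αb x)⟩
  have iα0 : ∫ x in Set.Icc (0 : ℝ) 1, (α x - 1 / 3) = 0 := by
    rw [integral_sub (intOn_cont αs.continuous) (integrable_const _), αm']; simp
  have iβ0 : ∫ x in Set.Icc (0 : ℝ) 1, (β x - 1 / 2) = 0 := by
    rw [integral_sub (intOn_cont βs.continuous) (integrable_const _), βm']; simp
  have gdev : ∀ (s : ℝ) (f : ℝ → ℝ), Continuous f → (∀ x, |f x| ≤ 3) →
      Good (fun x => (f x - wv s x) ^ 2) := by
    intro s f hf hb
    refine ⟨(hf.measurable.sub (measurable_wv s)).pow_const 2, 16, fun x => ?_⟩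
    have h3 : |f x - wv s x| ≤ 4 := by
      calc |f x - wv s x| ≤ |f x| + |wv s x| := abs_sub _ _
        _ ≤ 3 + 1 := add_le_add (hb x) (abs_wv s x).le
        _ = 4 := by norm_num
    rw [abs_pow]
    nlinarith [abs_nonneg (f x - wv s x)]
  have m1 := HasAvg.prod 1 gα gG1 iα0 rfl
  have m2 := HasAvg.prod 1 gG2 gβ rfl iβ0
  have m3 := HasAvg.prod 2000 (gdev (1 / 3) α αs.continuous αb) good_one rfl int_one
  have m4 := HasAvg.prod 2000 good_one (gdev (3 / 8) β βs.continuous βb) int_one rfl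
  have m5 : HasAvg (fun p => ε ^ 2 * E p) (ε ^ 2 * avg E) :=
    ⟨(continuous_const.mul hEc).continuousOn.integrableOn_compact isCompact_cell, avg_mul _ _⟩
  have m6 : HasAvg (fun _ => NL ε Fb (Fb' ε)) (NL ε Fb (Fb' ε)) :=
    ⟨(continuous_const.continuousOn).integrableOn_compact isCompact_cell, avg_const _⟩
  have hs := ((((m6.add m1).add m2).add m3).add m4).add m5
  refine (avg_mono (i1.add i2) hs.1 ?_).trans ?_
  · intro p
    obtain ⟨q1, q2, q3, q4⟩ := gu p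
    obtain ⟨r1, r2, r3, r4⟩ := gu' p
    set F := Fb + grad u p with hF
    set F' := Fb' ε + grad u' p with hF'
    set a := α p.1 with ha
    set b := β p.2 with hb
    have hab : |a| ≤ 3 := αb _
    have f1 : F (0, 0) = -(35 / 6) + (a - 1 / 3) * (1 / 2 + 3 * b) := by
      rw [hF, Pi.add_apply, q1]; simp [Fb]
    have f2 : F (1, 1) = -(15 / 4) + (b - 1 / 2) * (1 / 2 + 2 * a) := by
      rw [hF, Pi.add_apply, q4]; simp [Fb, mul_comm]
    have f3 : F (1, 0) = tα p.1 * (3 * deriv β p.2) := by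
      rw [hF, Pi.add_apply, q2]; simp [Fb]
    have f4 : F (0, 1) = (2 * deriv α p.1) * tβ p.2 := by
      rw [hF, Pi.add_apply, q3]; simp [Fb]
    have f5 : ε * F' (1, 0) = b + 78 / 5 := by
      rw [hF', Pi.add_apply, r2]
      simp only [Fb', one_mul]
      simp
      field_simp
      ring
    have f6 : ε * F' (0, 1) = a - 52 / 5 := by
      rw [hF', Pi.add_apply, r3]
      simp only [Fb', mul_one]
      simp
      field_simp
      ring
    have f7 : F' (0, 0) = 0 := by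
      rw [hF', Pi.add_apply, r1]; simp [Fb']
    have f8 : F' (1, 1) = 0 := by
      rw [hF', Pi.add_apply, r4]; simp [Fb']
    have hst : st ε F F' = ![13 / 6 + (a - 1 / 3) * (1 / 2 + 3 * b),
        13 / 4 + (b - 1 / 2) * (1 / 2 + 2 * a), b, a, 0, 0,
        ε * (tα p.1 * (3 * deriv β p.2)), ε * ((2 * deriv α p.1) * tβ p.2)] := by
      simp only [st, f1, f2, f3, f4, f5, f6, f7, f8]
      congr 1
      · ring
      congr 1
      · ring
      congr 1
      · ring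
      congr 1
      · ring
    have hNL := NL_pat hε.ne' F F' a b f1 f2 f5 f6 f7 f8
    have hE : 3 * ((ε * (tα p.1 * (3 * deriv β p.2))) ^ 2
        + (ε * ((2 * deriv α p.1) * tβ p.2)) ^ 2) = ε ^ 2 * E p := by
      simp only [E]; ring
    show linW (LP ε k (ch k hk p)) F + linW (LP ε k (ch k hk p)) F' ≤ _
    by_cases hc : wv (1 / 3) p.1 = wv (3 / 8) p.2
    · have e1 : ch k hk p = ⟨1, by omega⟩ := by unfold ch; rw [if_pos hc]
      rw [e1, linW_LP, linW_LP, if_pos rfl, if_pos rfl, zero_mul, zero_mul, add_zero, add_zero]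
      have e2 := energy1 ε F F'
      have e3 := W1_pat (x6 := ε * (tα p.1 * (3 * deriv β p.2)))
        (x7 := ε * ((2 * deriv α p.1) * tβ p.2)) (b := b) hab (wv_eq (1 / 3) p.1) hc
      rw [hst, hNL] at e2
      rw [hE] at e3
      rw [if_pos rfl]
      linarith
    · have e1 : ch k hk p = ⟨0, by omega⟩ := by unfold ch; rw [if_neg hc]
      have hc' : wv (1 / 3) p.1 = -wv (3 / 8) p.2 := by
        rcases wv_eq (1 / 3) p.1 with h | h <;> rcases wv_eq (3 / 8) p.2 with h' | h' <;>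
          rw [h, h'] at hc ⊢
        · exact absurd rfl hc
        · norm_num
        · exact absurd rfl hc
      rw [e1, linW_LP, linW_LP]
      have e2 := energy0 ε F F'
      have e3 := W0_pat (x6 := ε * (tα p.1 * (3 * deriv β p.2)))
        (x7 := ε * ((2 * deriv α p.1) * tβ p.2)) (b := b) hab (wv_eq (1 / 3) p.1) hc'
      rw [hst, hNL] at e2
      rw [hE] at e3
      simp only [zero_ne_one, if_false, Nat.cast_zero, zero_mul, add_zero]
      linarith
  · rw [hs.2]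
    nlinarith [αc, βc]

end Pool.Agent.Lib.MP_2a9317_an.T2
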