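import Pool.Agent.Lib.MP_2a9317_an.AffFinal
import Pool.Agent.Lib.MP_2a9317_an.T2.Pat

set_option autoImplicit false

namespace Pool.Agent.Lib.MP_2a9317_an.T2

open MeasureTheory Matrix Real
open scoped ContDiff

/-- the parameters: laminates are separated from the pattern -/
theorem separation : ∃ (ε g : ℝ), 0 < ε ∧ 0 < g ∧
    (∃ G : (Ent 2 → ℝ) → (Ent 2 → ℝ) → ℝ,
      (∀ (F F' : Ent 2 → ℝ) (ξ : Fin 2 → ℝ) (a a' : Fin 2 → ℝ) (θ : ℝ), 0 < θ → θ < 1 →
        G F F' ≤ θ * G (F + (1 - θ) • tens ξ a) (F' + (1 - θ) • tens ξ a')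
          + (1 - θ) * G (F - θ • tens ξ a) (F' - θ • tens ξ a')) ∧
      (∀ (k : ℕ) (j : Fin k) F F', G F F' ≤ linW (LP ε k j) F + linW (LP ε k j) F') ∧
      NL ε Fb (Fb' ε) + g ≤ G Fb (Fb' ε)) ∧
    ∀ (k : ℕ) (hk : 2 ≤ k),
      linStar (LP ε k) (ch k hk) Fb + linStar (LP ε k) (ch k hk) (Fb' ε)
        < NL ε Fb (Fb' ε) + g := by
  obtain ⟨e0, he0, g0, hg0, H⟩ := lower_fun
  obtain ⟨K, hK0, hK⟩ := upper (δ := g0 / 2) (by positivity)
  obtain ⟨ε, hε0, hε1, hε2⟩ : ∃ ε : ℝ, 0 < ε ∧ ε ^ 2 ≤ e0 ∧ ε ^ 2 * K ≤ g0 / 4 := by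
    set r := min e0 (g0 / (4 * (K + 1))) with hr
    have hr0 : 0 < r := lt_min he0 (by positivity)
    refine ⟨√r, Real.sqrt_pos.2 hr0, ?_, ?_⟩
    · rw [Real.sq_sqrt hr0.le]; exact min_le_left _ _
    · rw [Real.sq_sqrt hr0.le]
      calc r * K ≤ g0 / (4 * (K + 1)) * K := mul_le_mul_of_nonneg_right (min_le_right _ _) hK0
        _ ≤ g0 / (4 * (K + 1)) * (K + 1) := mul_le_mul_of_nonneg_left (by linarith) (by positivity)
        _ = g0 / 4 := by field_simp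
  refine ⟨ε, g0, hε0, hg0, H ε hε0 hε1, fun k hk => ?_⟩
  have := hK ε hε0 k hk
  linarith

/-- **linear problem**: two fields separate the closures for every number of phases `k ≥ 2` -/
theorem lin_two (k : ℕ) (hk : 2 ≤ k) :
    ∃ L : Fin k → Matrix (Ent 2) (Ent 2) ℝ,
      Function.Injective L ∧ (∀ j, (L j).PosDef) ∧
      ∃ χ : ℝ × ℝ → Fin k, IsPartition χ ∧
        ∃ M : Matrix (Ent 2) (Ent 2) ℝ, LinEffective L χ M ∧ M ∉ linGL L := by
  obtain ⟨ε, g, hε, hg, ⟨G, hR, hL, hG⟩, H⟩ := separation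
  have h2 := H k hk
  refine ⟨LP ε k, LP_injective hε k, LP_posDef hε k, _, ch_partition k hk, ?_⟩
  obtain ⟨M, hM⟩ := exists_linEffective (LP ε k) (LP_posDef hε k) (ch_partition k hk)
  refine ⟨M, hM, fun hcon => ?_⟩
  have h3 := lam_bound_closure (LP ε k) G hR (hL k) hcon Fb (Fb' ε)
  rw [hM.2, hM.2] at h2
  linarith

theorem nL_le_two' (k : ℕ) (hk : 2 ≤ k) : nL k ≤ 2 := by
  obtain ⟨K, _, hPD, χ, hχ, M, hM1, hM2⟩ := lin_two k hk
  apply sInf_le
  exact ⟨2, by simp, by norm_num, K, hPD, fun h => hM2 (h ▸ subset_closure ⟨χ, hχ, hM1⟩)⟩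

/-! ### The affine problem -/

/-- the affine phases -/
noncomputable def KP (ε : ℝ) (k : ℕ) (j : Fin k) : Matrix (Ent 2 ⊕ Unit) (Ent 2 ⊕ Unit) ℝ :=
  Matrix.fromBlocks (LP ε k j) 0 0 1

lemma KP_quad (ε : ℝ) (k : ℕ) (j : Fin k) (v : Ent 2 ⊕ Unit → ℝ) :
    v ⬝ᵥ (KP ε k j *ᵥ v) = linW (LP ε k j) (v ∘ Sum.inl) + v (Sum.inr ()) ^ 2 := by
  unfold KP linW
  rw [fromBlocks_mulVec]
  simp only [dotProduct, Fintype.sum_sum_type, Sum.elim_inl, Sum.elim_inr, zero_mulVec, one_mulVec,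
    add_zero, zero_add, Function.comp_apply, Finset.univ_unique, Finset.sum_singleton]
  congr 1
  rw [pow_two]

lemma affW_KP (ε : ℝ) (k : ℕ) (j : Fin k) (F : Ent 2 → ℝ) :
    affW (KP ε k j) F = linW (LP ε k j) F + 1 := by
  unfold affW
  rw [KP_quad]
  have : aff F ∘ Sum.inl = F := by ext q; rfl
  rw [this]
  simp [aff]

lemma KP_posDef {ε : ℝ} (hε : 0 < ε) (k : ℕ) (j : Fin k) : (KP ε k j).PosDef := by
  refine Matrix.PosDef.of_dotProduct_mulVec_pos ?_ ?_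
  · rw [Matrix.IsHermitian, KP, Matrix.fromBlocks_conjTranspose]
    have h := (LP_posDef hε k j).1
    rw [Matrix.IsHermitian] at h
    rw [h]
    simp
  · intro v hv
    rw [star_trivial, KP_quad]
    by_cases h : v ∘ Sum.inl = 0
    · have h2 : v (Sum.inr ()) ≠ 0 := by
        intro h2
        apply hv
        ext i
        rcases i with i | i
        · exact congrFun h i
        · exact h2
      have h3 : linW (LP ε k j) (v ∘ Sum.inl) = 0 := by
        rw [h]; unfold linW; simp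
      rw [h3]
      positivity
    · have := LP_pos hε k j h
      positivity

lemma KP_injective {ε : ℝ} (hε : 0 < ε) (k : ℕ) : Function.Injective (KP ε k) := by
  intro i j hij
  apply LP_injective hε k
  have := (Matrix.fromBlocks_inj.1 hij).1
  exact this

theorem aff_lam_bound {n k : ℕ} (K : Fin k → Matrix (Ent n ⊕ Unit) (Ent n ⊕ Unit) ℝ)
    (G : (Ent n → ℝ) → (Ent n → ℝ) → ℝ)
    (hR : ∀ (F F' : Ent n → ℝ) (ξ : Fin 2 → ℝ) (a a' : Fin n → ℝ) (θ : ℝ), 0 < θ → θ < 1 →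
      G F F' ≤ θ * G (F + (1 - θ) • tens ξ a) (F' + (1 - θ) • tens ξ a')
        + (1 - θ) * G (F - θ • tens ξ a) (F' - θ • tens ξ a'))
    (hL : ∀ j F F', G F F' ≤ affW (K j) F + affW (K j) F')
    {M : Matrix (Ent n ⊕ Unit) (Ent n ⊕ Unit) ℝ} (hM : AffLaminate K M) :
    ∀ F F', G F F' ≤ affW M F + affW M F' := by
  induction hM with
  | phase j => exact hL j
  | layer A B M θ ξ _ _ h0 h1 hξ hM ihA ihB =>
    intro F F'
    rw [hM.2 F, hM.2 F']
    have key : ∀ a a' : Fin n → ℝ, G F F' ≤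
        (θ * affW A (F + (1 - θ) • tens ξ a) + (1 - θ) * affW B (F - θ • tens ξ a))
        + (θ * affW A (F' + (1 - θ) • tens ξ a') + (1 - θ) * affW B (F' - θ • tens ξ a')) := by
      intro a a'
      have h2 := hR F F' ξ a a' θ h0 h1
      have h3 := mul_le_mul_of_nonneg_left
        (ihA (F + (1 - θ) • tens ξ a) (F' + (1 - θ) • tens ξ a')) h0.le
      have h4 := mul_le_mul_of_nonneg_left
        (ihB (F - θ • tens ξ a) (F' - θ • tens ξ a')) (sub_pos.2 h1).le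
      linarith
    have h5 : ∀ a' : Fin n → ℝ, G F F'
        - (θ * affW A (F' + (1 - θ) • tens ξ a') + (1 - θ) * affW B (F' - θ • tens ξ a'))
        ≤ ⨅ a : Fin n → ℝ, (θ * affW A (F + (1 - θ) • tens ξ a)
          + (1 - θ) * affW B (F - θ • tens ξ a)) := by
      intro a'
      apply le_ciInf
      intro a
      linarith [key a a']
    have h6 : G F F' - (⨅ a : Fin n → ℝ, (θ * affW A (F + (1 - θ) • tens ξ a)
          + (1 - θ) * affW B (F - θ • tens ξ a)))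
        ≤ ⨅ a' : Fin n → ℝ, (θ * affW A (F' + (1 - θ) • tens ξ a')
          + (1 - θ) * affW B (F' - θ • tens ξ a')) := by
      apply le_ciInf
      intro a'
      linarith [h5 a']
    linarith

lemma affStar_KP {ε : ℝ} (hε : 0 < ε) (k : ℕ) {χ : ℝ × ℝ → Fin k} (hχ : IsPartition χ)
    (F : Ent 2 → ℝ) : affStar (KP ε k) χ F ≤ linStar (LP ε k) χ F + 1 := by
  have h1 : ∀ u : {u : ℝ × ℝ → Fin 2 → ℝ // IsPotential u},
      affStar (KP ε k) χ F - 1 ≤ avg fun p => linW (LP ε k (χ p)) (F + grad u.1 p) := by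
    intro u
    have h2 := affStar_le (KP ε k) (KP_posDef hε k) χ F u.2
    simp only [affW_KP] at h2
    rw [avg_add (integrable_linW (LP ε k) hχ F u.2)
      ((continuous_const.continuousOn).integrableOn_compact isCompact_cell), avg_const] at h2
    linarith
  have : Nonempty {u : ℝ × ℝ → Fin 2 → ℝ // IsPotential u} :=
    ⟨⟨fun _ => 0, contDiff_const, fun _ _ => ⟨rfl, rfl⟩⟩⟩
  have h3 : affStar (KP ε k) χ F - 1 ≤ linStar (LP ε k) χ F := le_ciInf h1
  linarith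

/-- **affine problem**: two fields separate the closures for every number of phases `k ≥ 2` -/
theorem aff_two (k : ℕ) (hk : 2 ≤ k) :
    ∃ K : Fin k → Matrix (Ent 2 ⊕ Unit) (Ent 2 ⊕ Unit) ℝ,
      Function.Injective K ∧ (∀ j, (K j).PosDef) ∧
      ∃ χ : ℝ × ℝ → Fin k, IsPartition χ ∧
        ∃ M : Matrix (Ent 2 ⊕ Unit) (Ent 2 ⊕ Unit) ℝ, AffEffective K χ M ∧ M ∉ affGL K := by
  obtain ⟨ε, g, hε, hg, ⟨G, hR, hL, hG⟩, H⟩ := separation
  have h2 := H k hk
  refine ⟨KP ε k, KP_injective hε k, KP_posDef hε k, _, ch_partition k hk, ?_⟩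
  obtain ⟨M, hM⟩ := exists_affEffective (KP ε k) (KP_posDef hε k) (ch_partition k hk)
  refine ⟨M, hM, fun hcon => ?_⟩
  have h3 : G Fb (Fb' ε) + 2 ≤ affW M Fb + affW M (Fb' ε) := by
    have hc : IsClosed {M : Matrix (Ent 2 ⊕ Unit) (Ent 2 ⊕ Unit) ℝ |
        G Fb (Fb' ε) + 2 ≤ affW M Fb + affW M (Fb' ε)} :=
      isClosed_le continuous_const ((continuous_affW _).add (continuous_affW _))
    refine closure_minimal (fun M hM => ?_) hc hcon
    refine aff_lam_bound (KP ε k) (fun F F' => G F F' + 2) ?_ ?_ hM Fb (Fb' ε)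
    · intro F F' ξ a a' θ h0 h1
      have := hR F F' ξ a a' θ h0 h1
      linarith
    · intro j F F'
      have := hL k j F F'
      rw [affW_KP, affW_KP]
      linarith
  have h4 := affStar_KP hε k (ch_partition k hk) Fb
  have h5 := affStar_KP hε k (ch_partition k hk) (Fb' ε)
  rw [hM.2] at h4 h5
  linarith

theorem nK_le_two' (k : ℕ) (hk : 2 ≤ k) : nK k ≤ 2 := by
  obtain ⟨K, _, hPD, χ, hχ, M, hM1, hM2⟩ := aff_two k hk
  apply sInf_le
  exact ⟨2, by simp, by norm_num, K, hPD, fun h => hM2 (h ▸ subset_closure ⟨χ, hχ, hM1⟩)⟩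

end Pool.Agent.Lib.MP_2a9317_an.T2
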