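import Mathlib

set_option autoImplicit false

namespace Pool.Agent.Lib.MP_2a9317_an.T2

/-! ### The eight-dimensional state of two loads and its null Lagrangians -/

/-- states `(p₁, p₂, q₁, q₂, p̃₁, p̃₂, q̃₁, q̃₂)` -/
abbrev St : Type := Fin 8 → ℝ

/-- first null Lagrangian vanishing on the wells -/
def N0 (x : St) : ℝ := x 0 * x 2 - x 1 * x 3 - x 4 * x 6 + x 5 * x 7

/-- second null Lagrangian vanishing on the wells -/
def N2 (e : ℝ) (x : St) : ℝ := (x 6 * x 3 - x 2 * x 7) - e * (x 0 * x 5 - x 4 * x 1)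

noncomputable def Z2 (x : St) : ℝ := x 4 - x 6 + x 7 / 2
noncomputable def Z3 (x : St) : ℝ := x 5 - x 7 + x 6 / 2
noncomputable def Z5 (x : St) : ℝ := 2 * x 0 - 3 * x 1 + 7 / 2 * x 2 - 4 * x 3 + 5
noncomputable def Z5L (x : St) : ℝ := 2 * x 0 - 3 * x 1 + 7 / 2 * x 2 - 4 * x 3

/-- a null Lagrangian which is negative definite on the wells -/
def psi (x : St) : ℝ := x 0 * x 2 + x 1 * x 3 - x 4 * x 6 - x 5 * x 7

/-- excess energy of the phase `1` -/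
noncomputable def W1 (x : St) : ℝ :=
  2 * ((x 0 + x 2 / 2 - 5) ^ 2 + (x 1 + x 3 / 2 - 5) ^ 2) + 6 / 13 * (x 2 - x 3) ^ 2
  + 2 * ((x 4 - x 6 / 2) ^ 2 + (x 5 - x 7 / 2) ^ 2) + 6 / 13 * (x 6 - x 7) ^ 2

/-- excess energy of the phase `0` -/
noncomputable def W0 (x : St) : ℝ :=
  2 / 3 * ((x 0 + 3 / 2 * x 2 + 1) ^ 2 + (x 1 + 3 / 2 * x 3 - 1) ^ 2) + 6 / 13 * (x 2 + x 3) ^ 2
  + 2 / 3 * ((x 4 - 3 / 2 * x 6) ^ 2 + (x 5 - 3 / 2 * x 7) ^ 2) + 6 / 13 * (x 6 + x 7) ^ 2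

/-- the mean state of the pattern -/
noncomputable def xb : St := ![13 / 6, 13 / 4, 1 / 2, 1 / 3, 0, 0, 0, 0]

lemma xb0 : xb 0 = 13 / 6 := rfl
lemma xb1 : xb 1 = 13 / 4 := rfl
lemma xb2 : xb 2 = 1 / 2 := rfl
lemma xb3 : xb 3 = 1 / 3 := rfl
lemma xb4 : xb 4 = 0 := rfl
lemma xb5 : xb 5 = 0 := rfl
lemma xb6 : xb 6 = 0 := rfl
lemma xb7 : xb 7 = 0 := rfl

/-- the rank-one directions (`e = ε²`) -/
structure IsR1 (e : ℝ) (J : St) : Prop where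
  h1 : J 0 * J 2 = J 4 * J 6
  h2 : J 1 * J 3 = J 5 * J 7
  h3 : J 6 * J 7 = e * (J 0 * J 1)
  h4 : J 2 * J 3 = e * (J 4 * J 5)
  h5 : J 6 * J 3 = e * (J 0 * J 5)
  h6 : J 2 * J 7 = e * (J 4 * J 1)

lemma IsR1.smul {e : ℝ} {J : St} (h : IsR1 e J) (c : ℝ) : IsR1 e (c • J) := by
  constructor <;> simp only [Pi.smul_apply, smul_eq_mul]
  · linear_combination c ^ 2 * h.h1
  · linear_combination c ^ 2 * h.h2
  · linear_combination c ^ 2 * h.h3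
  · linear_combination c ^ 2 * h.h4
  · linear_combination c ^ 2 * h.h5
  · linear_combination c ^ 2 * h.h6

/-- derivative of `N0` -/
def dN0 (x J : St) : ℝ :=
  x 0 * J 2 + J 0 * x 2 - x 1 * J 3 - J 1 * x 3 - x 4 * J 6 - J 4 * x 6 + x 5 * J 7 + J 5 * x 7

/-- derivative of `N2` -/
def dN2 (e : ℝ) (x J : St) : ℝ :=
  (x 6 * J 3 + J 6 * x 3 - x 2 * J 7 - J 2 * x 7)
    - e * (x 0 * J 5 + J 0 * x 5 - x 4 * J 1 - J 4 * x 1)

lemma N0_line {e : ℝ} {x J : St} (h : IsR1 e J) (t : ℝ) :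
    N0 (x + t • J) = N0 x + t * dN0 x J := by
  simp only [N0, dN0, Pi.add_apply, Pi.smul_apply, smul_eq_mul]
  linear_combination t ^ 2 * h.h1 - t ^ 2 * h.h2

lemma N2_line {e : ℝ} {x J : St} (h : IsR1 e J) (t : ℝ) :
    N2 e (x + t • J) = N2 e x + t * dN2 e x J := by
  simp only [N2, dN2, Pi.add_apply, Pi.smul_apply, smul_eq_mul]
  linear_combination t ^ 2 * h.h5 - t ^ 2 * h.h6

lemma psi_line {e : ℝ} {x J : St} (h : IsR1 e J) (t : ℝ) :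
    psi (x + t • J) = psi x + t * (x 0 * J 2 + J 0 * x 2 + x 1 * J 3 + J 1 * x 3
      - x 4 * J 6 - J 4 * x 6 - x 5 * J 7 - J 5 * x 7) := by
  simp only [psi, Pi.add_apply, Pi.smul_apply, smul_eq_mul]
  linear_combination t ^ 2 * h.h1 + t ^ 2 * h.h2

lemma Z2_line (x J : St) (t : ℝ) : Z2 (x + t • J) = Z2 x + t * Z2 J := by
  simp only [Z2, Pi.add_apply, Pi.smul_apply, smul_eq_mul]; ring

lemma Z3_line (x J : St) (t : ℝ) : Z3 (x + t • J) = Z3 x + t * Z3 J := by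
  simp only [Z3, Pi.add_apply, Pi.smul_apply, smul_eq_mul]; ring

lemma Z5_line (x J : St) (t : ℝ) : Z5 (x + t • J) = Z5 x + t * Z5L J := by
  simp only [Z5, Z5L, Pi.add_apply, Pi.smul_apply, smul_eq_mul]; ring

/-- the derivatives of a null Lagrangian along a rank-one line are constant -/
lemma dN0_line {e : ℝ} {x J : St} (h : IsR1 e J) (t : ℝ) : dN0 (x + t • J) J = dN0 x J := by
  simp only [dN0, Pi.add_apply, Pi.smul_apply, smul_eq_mul]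
  linear_combination 2 * t * h.h1 - 2 * t * h.h2

lemma dN2_line {e : ℝ} {x J : St} (h : IsR1 e J) (t : ℝ) : dN2 e (x + t • J) J = dN2 e x J := by
  simp only [dN2, Pi.add_apply, Pi.smul_apply, smul_eq_mul]
  linear_combination 2 * t * h.h5 - 2 * t * h.h6

/-- squared distance to the mean state -/
noncomputable def DD (x : St) : ℝ := ∑ i, (x i - xb i) ^ 2

/-- squared length -/
def sq (J : St) : ℝ := ∑ i, J i ^ 2

lemma DD_eq (x : St) : DD x = (x 0 - 13 / 6) ^ 2 + (x 1 - 13 / 4) ^ 2 + (x 2 - 1 / 2) ^ 2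
    + (x 3 - 1 / 3) ^ 2 + x 4 ^ 2 + x 5 ^ 2 + x 6 ^ 2 + x 7 ^ 2 := by
  simp only [DD, Fin.sum_univ_eight, xb0, xb1, xb2, xb3, xb4, xb5, xb6, xb7, sub_zero]

lemma sq_eq (J : St) : sq J = J 0 ^ 2 + J 1 ^ 2 + J 2 ^ 2 + J 3 ^ 2 + J 4 ^ 2 + J 5 ^ 2
    + J 6 ^ 2 + J 7 ^ 2 := by
  simp only [sq, Fin.sum_univ_eight]

lemma DD_line (x J : St) (t : ℝ) : DD (x + t • J)
    = DD x + 2 * t * (∑ i, (x i - xb i) * J i) + t ^ 2 * sq J := by
  simp only [DD, sq, Fin.sum_univ_eight, Pi.add_apply, Pi.smul_apply, smul_eq_mul]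
  ring

/-- the sum controlling rank-one directions -/
noncomputable def AA (e : ℝ) (x J : St) : ℝ :=
  dN0 x J ^ 2 + dN2 e x J ^ 2 + Z2 J ^ 2 + Z3 J ^ 2 + Z5L J ^ 2

/-- transversality at the centre -/
lemma trans_zero {J : St} (h : IsR1 0 J) (hA : AA 0 xb J = 0) : ∀ i, J i = 0 := by
  have hz : ∀ a b c d f : ℝ, a ^ 2 + b ^ 2 + c ^ 2 + d ^ 2 + f ^ 2 = 0 →
      a = 0 ∧ b = 0 ∧ c = 0 ∧ d = 0 ∧ f = 0 := by
    intro a b c d f hs
    refine ⟨?_, ?_, ?_, ?_, ?_⟩ <;> apply pow_eq_zero_iff (n := 2) (by norm_num) |>.1 <;>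
      nlinarith [sq_nonneg a, sq_nonneg b, sq_nonneg c, sq_nonneg d, sq_nonneg f]
  obtain ⟨a0, a2, b2, b3, b5⟩ := hz _ _ _ _ _ hA
  obtain ⟨h1, h2, h3, h4, h5, h6⟩ := h
  simp only [dN0, dN2, Z2, Z3, Z5L, xb0, xb1, xb2, xb3, xb4, xb5, xb6, xb7] at a0 a2 b2 b3 b5
  simp only [zero_mul] at h3 h4 h5 h6 a0 a2
  have e7 : 2 * J 6 = 3 * J 7 := by linarith
  have c6 : J 6 = 0 := by
    have : J 6 * J 6 = 0 := by
      have : J 6 * (2 * J 6) = 0 := by rw [e7]; linear_combination 3 * h3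
      linarith
    exact mul_self_eq_zero.1 this
  have c7 : J 7 = 0 := by rw [c6] at e7; linarith
  have c4 : J 4 = 0 := by rw [c6, c7] at b2; linarith
  have c5 : J 5 = 0 := by rw [c6, c7] at b3; linarith
  rw [c4, zero_mul] at h1
  rw [c5, zero_mul] at h2
  have c23 : J 2 = 0 ∧ J 3 = 0 := by
    rcases mul_eq_zero.1 h4 with h | h
    · refine ⟨h, ?_⟩
      rcases mul_eq_zero.1 h2 with h' | h'
      · rw [h, h'] at a0 b5; linarith
      · exact h'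
    · refine ⟨?_, h⟩
      rcases mul_eq_zero.1 h1 with h' | h'
      · rw [h, h'] at a0 b5; linarith
      · exact h'
  obtain ⟨c2, c3⟩ := c23
  rw [c2, c3] at a0 b5
  have c0 : J 0 = 0 := by linarith
  have c1 : J 1 = 0 := by linarith
  intro i
  fin_cases i <;> assumption

end Pool.Agent.Lib.MP_2a9317_an.T2
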