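import Pool.Agent.Lib.MP_2a9317_an.T2.Alg

set_option autoImplicit false

namespace Pool.Agent.Lib.MP_2a9317_an.T2

open Set Topology

lemma continuous_AA : Continuous (fun z : ℝ × St × St => AA z.1 z.2.1 z.2.2) := by
  unfold AA dN0 dN2 Z2 Z3 Z5L
  fun_prop

lemma continuous_DD : Continuous DD := by
  unfold DD
  fun_prop

lemma continuous_sq : Continuous sq := by
  unfold sq
  fun_prop

/-- parameters, states and unit rank-one directions -/
def KK : Set (ℝ × St × St) :=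
  {z | z.1 ∈ Icc (0 : ℝ) 1 ∧ DD z.2.1 ≤ 1 ∧ sq z.2.2 = 1 ∧ IsR1 z.1 z.2.2}

lemma isCompact_KK : IsCompact KK := by
  have hcl : IsClosed KK := by
    have e1 : KK = ({z | z.1 ∈ Icc (0 : ℝ) 1} ∩ {z | DD z.2.1 ≤ 1} ∩ {z | sq z.2.2 = 1} ∩
        {z | z.2.2 0 * z.2.2 2 = z.2.2 4 * z.2.2 6} ∩
        {z | z.2.2 1 * z.2.2 3 = z.2.2 5 * z.2.2 7} ∩
        {z | z.2.2 6 * z.2.2 7 = z.1 * (z.2.2 0 * z.2.2 1)} ∩
        {z | z.2.2 2 * z.2.2 3 = z.1 * (z.2.2 4 * z.2.2 5)} ∩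
        {z | z.2.2 6 * z.2.2 3 = z.1 * (z.2.2 0 * z.2.2 5)} ∩
        {z | z.2.2 2 * z.2.2 7 = z.1 * (z.2.2 4 * z.2.2 1)} : Set (ℝ × St × St)) := by
      ext z
      constructor
      · rintro ⟨ha, hb, hc, hd⟩
        exact ⟨⟨⟨⟨⟨⟨⟨⟨ha, hb⟩, hc⟩, hd.h1⟩, hd.h2⟩, hd.h3⟩, hd.h4⟩, hd.h5⟩, hd.h6⟩
      · rintro ⟨⟨⟨⟨⟨⟨⟨⟨ha, hb⟩, hc⟩, h1⟩, h2⟩, h3⟩, h4⟩, h5⟩, h6⟩
        exact ⟨ha, hb, hc, ⟨h1, h2, h3, h4, h5, h6⟩⟩
    rw [e1]
    have c0 : IsClosed {z : ℝ × St × St | z.1 ∈ Icc (0 : ℝ) 1} :=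
      isClosed_Icc.preimage continuous_fst
    have c1 : IsClosed {z : ℝ × St × St | DD z.2.1 ≤ 1} :=
      isClosed_le (continuous_DD.comp (by fun_prop)) continuous_const
    have c2 : IsClosed {z : ℝ × St × St | sq z.2.2 = 1} :=
      isClosed_eq (continuous_sq.comp (by fun_prop)) continuous_const
    refine (((((((c0.inter c1).inter c2).inter ?_).inter ?_).inter ?_).inter ?_).inter ?_).inter ?_
    all_goals exact isClosed_eq (by fun_prop) (by fun_prop)
  have hsub : KK ⊆ Icc (0 : ℝ) 1 ×ˢ (Set.pi univ (fun _ : Fin 8 => Icc (-10 : ℝ) 10) ×ˢ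
      Set.pi univ (fun _ : Fin 8 => Icc (-1 : ℝ) 1)) := by
    rintro ⟨e, x, J⟩ ⟨ha, hb, hc, -⟩
    refine ⟨ha, ?_, ?_⟩
    · intro i _
      have h1 : (x i - xb i) ^ 2 ≤ 1 :=
        (Finset.single_le_sum (f := fun i => (x i - xb i) ^ 2) (fun i _ => sq_nonneg _)
          (Finset.mem_univ i)).trans hb
      have h2 : |x i - xb i| ≤ 1 := by
        rw [← sq_abs] at h1
        have := abs_nonneg (x i - xb i)
        nlinarith
      have h3 : -9 ≤ xb i ∧ xb i ≤ 9 := by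
        fin_cases i <;> simp [xb] <;> norm_num
      rw [abs_le] at h2
      exact ⟨by linarith [h2.1, h3.1], by linarith [h2.2, h3.2]⟩
    · intro i _
      have h1 : J i ^ 2 ≤ 1 :=
        (Finset.single_le_sum (f := fun i => J i ^ 2) (fun i _ => sq_nonneg _)
          (Finset.mem_univ i)).trans hc.le
      have h2 : |J i| ≤ 1 := by
        rw [← sq_abs] at h1
        have := abs_nonneg (J i)
        nlinarith
      rw [abs_le] at h2
      exact h2
  exact IsCompact.of_isClosed_subset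
    (isCompact_Icc.prod ((isCompact_univ_pi fun _ => isCompact_Icc).prod
      (isCompact_univ_pi fun _ => isCompact_Icc))) hcl hsub

lemma AA_nonneg (e : ℝ) (x J : St) : 0 ≤ AA e x J := by unfold AA; positivity

lemma DD_nonneg (x : St) : 0 ≤ DD x := Finset.sum_nonneg fun _ _ => sq_nonneg _

lemma sq_nonneg' (x : St) : 0 ≤ sq x := Finset.sum_nonneg fun _ _ => sq_nonneg _

lemma DD_eq_zero {x : St} (h : DD x = 0) : x = xb := by
  ext i
  have h1 := (Finset.sum_eq_zero_iff_of_nonneg (fun i _ => sq_nonneg (x i - xb i))).1 h i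
    (Finset.mem_univ i)
  have h2 := pow_eq_zero_iff (n := 2) (by norm_num) |>.1 h1
  linarith

lemma trans_unit : ∃ r > (0 : ℝ), r ≤ 1 ∧ ∃ c > (0 : ℝ), ∀ e x J, (e, x, J) ∈ KK → e ≤ r →
    DD x ≤ r → c ≤ AA e x J := by
  -- no zero of `AA` near the centre
  have hZ : ∃ m > (0 : ℝ), ∀ e x J, (e, x, J) ∈ KK → e + DD x < m → AA e x J ≠ 0 := by
    let Z : Set (ℝ × St × St) := KK ∩ {z | AA z.1 z.2.1 z.2.2 = 0}
    have hZc : IsCompact Z := isCompact_KK.inter_right (isClosed_eq continuous_AA continuous_const)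
    rcases Z.eq_empty_or_nonempty with hemp | hne
    · refine ⟨1, one_pos, fun e x J hK _ h0 => ?_⟩
      have : (e, x, J) ∈ Z := ⟨hK, h0⟩
      rw [hemp] at this
      exact this
    · have hcont : Continuous (fun z : ℝ × St × St => z.1 + DD z.2.1) :=
        continuous_fst.add (continuous_DD.comp (by fun_prop))
      obtain ⟨z, hz, hmin⟩ := hZc.exists_isMinOn hne hcont.continuousOn
      refine ⟨z.1 + DD z.2.1, ?_, fun e x J hK hlt h0 => ?_⟩
      · obtain ⟨⟨h1, h2, h3, h4⟩, h5⟩ := hz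
        rcases lt_or_eq_of_le (add_nonneg h1.1 (DD_nonneg z.2.1)) with h | h
        · exact h
        · exfalso
          have hd := DD_nonneg z.2.1
          have he := h1.1
          have hd0 : DD z.2.1 = 0 := by linarith
          have he0 : z.1 = 0 := by linarith
          have hx := DD_eq_zero hd0
          rw [mem_ofPred_eq, hx, he0] at h5
          rw [he0] at h4
          have h6 := trans_zero h4 h5
          have : sq z.2.2 = 0 := by
            unfold sq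
            exact Finset.sum_eq_zero fun i _ => by rw [h6 i]; norm_num
          linarith
      · have := hmin (show (e, x, J) ∈ Z from ⟨hK, h0⟩)
        simp only [mem_setOf_eq] at this
        linarith
  obtain ⟨m, hm, hZ⟩ := hZ
  let r := min (1 : ℝ) (m / 3)
  have hr : 0 < r := lt_min one_pos (by positivity)
  have hr1 : r ≤ 1 := min_le_left _ _
  have hrm : r ≤ m / 3 := min_le_right _ _
  refine ⟨r, hr, hr1, ?_⟩
  let S : Set (ℝ × St × St) := KK ∩ ({z | z.1 ≤ r} ∩ {z | DD z.2.1 ≤ r})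
  have hSc : IsCompact S := isCompact_KK.inter_right
    ((isClosed_le continuous_fst continuous_const).inter
      (isClosed_le (continuous_DD.comp (by fun_prop)) continuous_const))
  rcases S.eq_empty_or_nonempty with hemp | hne
  · refine ⟨1, one_pos, fun e x J hK he hx => ?_⟩
    have : (e, x, J) ∈ S := ⟨hK, he, hx⟩
    rw [hemp] at this
    exact this.elim
  · obtain ⟨z, hz, hmin⟩ := hSc.exists_isMinOn hne continuous_AA.continuousOn
    refine ⟨AA z.1 z.2.1 z.2.2, ?_, fun e x J hK he hx => ?_⟩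
    swap
    · exact isMinOn_iff.1 hmin (e, x, J) ⟨hK, he, hx⟩
    have h1 := hZ z.1 z.2.1 z.2.2 hz.1 (by
      have h2 := hz.2.1
      have h3 := hz.2.2
      simp only [mem_ofPred_eq] at h2 h3
      linarith)
    exact lt_of_le_of_ne (AA_nonneg _ _ _) (Ne.symm h1)

/-- uniform transversality near the centre -/
theorem trans_near : ∃ r > (0 : ℝ), r ≤ 1 ∧ ∃ c > (0 : ℝ), ∀ e x J, 0 ≤ e → e ≤ r → DD x ≤ r →
    IsR1 e J → c * sq J ≤ AA e x J := by
  obtain ⟨r, hr, hr1, c, hc, h⟩ := trans_unit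
  refine ⟨r, hr, hr1, c, hc, fun e x J he0 he hx hJ => ?_⟩
  rcases eq_or_lt_of_le (sq_nonneg' J) with h0 | h0
  · rw [← h0, mul_zero]; exact AA_nonneg _ _ _
  · set s := Real.sqrt (sq J) with hs
    have hs0 : 0 < s := Real.sqrt_pos.2 h0
    have hs2 : s ^ 2 = sq J := Real.sq_sqrt h0.le
    have h1 : sq (s⁻¹ • J) = 1 := by
      have : sq (s⁻¹ • J) = s⁻¹ ^ 2 * sq J := by
        simp only [sq, Pi.smul_apply, smul_eq_mul, mul_pow, Finset.mul_sum]
      rw [this, ← hs2]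
      field_simp
    have h2 := h e x (s⁻¹ • J) ⟨⟨he0, he.trans hr1⟩, hx.trans hr1, h1, hJ.smul _⟩ he hx
    have h3 : AA e x (s⁻¹ • J) = s⁻¹ ^ 2 * AA e x J := by
      simp only [AA, dN0, dN2, Z2, Z3, Z5L, Pi.smul_apply, smul_eq_mul]
      ring
    rw [h3] at h2
    calc c * sq J = c * s ^ 2 := by rw [hs2]
      _ ≤ (s⁻¹ ^ 2 * AA e x J) * s ^ 2 := mul_le_mul_of_nonneg_right h2 (by positivity)
      _ = AA e x J := by field_simp

end Pool.Agent.Lib.MP_2a9317_an.T2
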